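import Pool.Agent.Lib.helper92.ZF.Defs
import Mathlib.Combinatorics.SimpleGraph.Basic
import Mathlib.Algebra.Order.Archimedean.Basic
import Mathlib.Topology.Sheaves.Presheaf
import Mathlib.Algebra.Order.Ring.Star

-- ======== part 0: formerly Pool.Agent.Lib.helper92.ZF.DP
section MrgPart0

/-! Definability with parameters over a transitive model. -/

namespace Pool.Agent.ZF92

open ZFSet

variable {M : Set ZFSet.{0}}

def lift (f : ℕ → ℕ) : ℕ → ℕ
  | 0 => 0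
  | n + 1 => f n + 1

def Fm.ren : Fm → (ℕ → ℕ) → Fm
  | .mem i j, f => .mem (f i) (f j)
  | .eq i j, f => .eq (f i) (f j)
  | .neg a, f => .neg (a.ren f)
  | .and a b, f => .and (a.ren f) (b.ren f)
  | .all a, f => .all (a.ren (lift f))

@[simp] theorem cons_zero {α : Type 1} (x : α) (v : ℕ → α) : cons x v 0 = x := rfl
@[simp] theorem cons_succ {α : Type 1} (x : α) (v : ℕ → α) (n : ℕ) : cons x v (n + 1) = v n := rfl

theorem cons_lift {α : Type 1} (x : α) (v : ℕ → α) (f : ℕ → ℕ) :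
    cons x v ∘ lift f = cons x (v ∘ f) := by
  funext n; cases n <;> rfl

theorem sat_ren (φ : Fm) (f : ℕ → ℕ) (v : ℕ → ZFSet) :
    Sat M (φ.ren f) v ↔ Sat M φ (v ∘ f) := by
  induction φ generalizing f v with
  | mem i j => rfl
  | eq i j => rfl
  | neg a ih => simp only [Fm.ren, Sat, ih]
  | and a b iha ihb => simp only [Fm.ren, Sat, iha, ihb]
  | all a ih => simp only [Fm.ren, Sat, ih, cons_lift]

def InM (M : Set ZFSet.{0}) (v : ℕ → ZFSet.{0}) : Prop := ∀ i, v i ∈ M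

theorem InM.cons {v : ℕ → ZFSet} (hv : InM M v) {x : ZFSet} (hx : x ∈ M) : InM M (cons x v) := by
  intro i; cases i
  · exact hx
  · exact hv _

def mrg (v p : ℕ → ZFSet.{0}) (i : ℕ) : ZFSet.{0} := if i % 2 = 0 then v (i / 2) else p (i / 2)

theorem InM.mrg {v p : ℕ → ZFSet} (hv : InM M v) (hp : InM M p) : InM M (mrg v p) := by
  intro i; unfold ZF92.mrg; split_ifs
  · exact hv _
  · exact hp _

theorem mrg_even (v p : ℕ → ZFSet) (i : ℕ) : mrg v p (2 * i) = v i := by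
  simp [mrg]

theorem mrg_odd (v p : ℕ → ZFSet) (i : ℕ) : mrg v p (2 * i + 1) = p i := by
  have h1 : (2 * i + 1) % 2 = 1 := by omega
  have h2 : (2 * i + 1) / 2 = i := by omega
  simp [mrg, h1, h2]

theorem mrg_ext {v p w : ℕ → ZFSet} (h1 : ∀ i, w (2 * i) = v i) (h2 : ∀ i, w (2 * i + 1) = p i) :
    w = mrg v p := by
  funext k
  obtain ⟨i, rfl | rfl⟩ := Nat.even_or_odd' k
  · rw [mrg_even, h1]
  · rw [mrg_odd, h2]

/-- Definable with parameters. -/
def DP (M : Set ZFSet.{0}) (S : (ℕ → ZFSet.{0}) → Prop) : Prop :=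
  ∃ (φ : Fm) (p : ℕ → ZFSet), InM M p ∧ ∀ v, InM M v → (S v ↔ Sat M φ (mrg v p))

theorem DP.congr {S S' : (ℕ → ZFSet) → Prop} (h : DP M S) (e : ∀ v, InM M v → (S' v ↔ S v)) :
    DP M S' := by
  obtain ⟨φ, p, hp, h⟩ := h
  exact ⟨φ, p, hp, fun v hv => (e v hv).trans (h v hv)⟩

theorem DP.not {S : (ℕ → ZFSet) → Prop} (h : DP M S) : DP M (fun v => ¬ S v) := by
  obtain ⟨φ, p, hp, h⟩ := h
  exact ⟨.neg φ, p, hp, fun v hv => not_congr (h v hv)⟩

theorem DP.and {S S' : (ℕ → ZFSet) → Prop} (h : DP M S) (h' : DP M S') :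
    DP M (fun v => S v ∧ S' v) := by
  obtain ⟨φ, p, hp, h⟩ := h
  obtain ⟨φ', p', hp', h'⟩ := h'
  refine ⟨.and (φ.ren fun k => if k % 2 = 0 then k else 2 * (2 * (k / 2)) + 1)
    (φ'.ren fun k => if k % 2 = 0 then k else 2 * (2 * (k / 2) + 1) + 1), mrg p p', hp.mrg hp',
    fun v hv => ?_⟩
  simp only [Sat, sat_ren]
  rw [h v hv, h' v hv]
  congr! 2
  · refine (mrg_ext (fun i => ?_) (fun i => ?_)).symm
    · simp [mrg_even]
    · have h1 : (2 * i + 1) % 2 = 1 := by omega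
      have h2 : (2 * i + 1) / 2 = i := by omega
      simp only [Function.comp, h1, h2, one_ne_zero, if_false, mrg_odd, mrg_even]
  · refine (mrg_ext (fun i => ?_) (fun i => ?_)).symm
    · simp [mrg_even]
    · have h1 : (2 * i + 1) % 2 = 1 := by omega
      have h2 : (2 * i + 1) / 2 = i := by omega
      simp only [Function.comp, h1, h2, one_ne_zero, if_false, mrg_odd]

def gsh (k : ℕ) : ℕ := if k = 0 then 0 else if k % 2 = 0 then k - 1 else k + 1

theorem cons_mrg (x : ZFSet) (v p : ℕ → ZFSet) :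
    cons x (mrg v p) ∘ gsh = mrg (cons x v) p := by
  refine mrg_ext (fun i => ?_) (fun i => ?_)
  · cases i with
    | zero => rfl
    | succ i =>
      have h1 : gsh (2 * (i + 1)) = 2 * i + 1 := by
        unfold gsh; rw [if_neg (by omega), if_pos (by omega)]; omega
      simp only [Function.comp, h1, cons_succ, mrg_even]
  · have h1 : gsh (2 * i + 1) = 2 * i + 1 + 1 := by
      unfold gsh; rw [if_neg (by omega), if_neg (by omega)]
    simp only [Function.comp, h1, cons_succ, mrg_odd]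

theorem DP.all {S : (ℕ → ZFSet) → Prop} (h : DP M S) :
    DP M (fun v => ∀ x ∈ M, S (cons x v)) := by
  obtain ⟨φ, p, hp, h⟩ := h
  refine ⟨.all (φ.ren gsh), p, hp, fun v hv => ?_⟩
  simp only [Sat, sat_ren, cons_mrg]
  exact forall₂_congr fun x hx => h _ (hv.cons hx)

theorem DP.ex {S : (ℕ → ZFSet) → Prop} (h : DP M S) :
    DP M (fun v => ∃ x ∈ M, S (cons x v)) :=
  h.not.all.not.congr fun v _ => by simp

theorem DP.or {S S' : (ℕ → ZFSet) → Prop} (h : DP M S) (h' : DP M S') :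
    DP M (fun v => S v ∨ S' v) :=
  (h.not.and h'.not).not.congr fun v _ => by tauto

theorem DP.iff {S S' : (ℕ → ZFSet) → Prop} (h : DP M S) (h' : DP M S') :
    DP M (fun v => S v ↔ S' v) :=
  ((h.and h').or (h.not.and h'.not)).congr fun v _ => by tauto

theorem DP.ren {S : (ℕ → ZFSet) → Prop} (h : DP M S) (f : ℕ → ℕ) :
    DP M (fun v => S (v ∘ f)) := by
  obtain ⟨φ, p, hp, h⟩ := h
  refine ⟨φ.ren fun k => if k % 2 = 0 then 2 * f (k / 2) else k, p, hp, fun v hv => ?_⟩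
  refine (h (v ∘ f) (fun i => hv _)).trans ?_
  rw [sat_ren]
  congr! 1
  refine (mrg_ext (fun i => ?_) (fun i => ?_)).symm
  · simp [mrg_even]
  · have h1 : (2 * i + 1) % 2 = 1 := by omega
    simp only [Function.comp, h1, one_ne_zero, if_false, mrg_odd]

theorem DP.const (i : ℕ) {a : ZFSet} (ha : a ∈ M) : DP M (fun v => v i = a) :=
  ⟨.eq (2 * i) (2 * 0 + 1), fun _ => a, fun _ => ha, fun v _ => by
    simp only [Sat, mrg_even, mrg_odd]⟩

variable [hM : Fact (ZFC M)]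

theorem trM {x y : ZFSet} (hx : x ∈ M) (hy : y ∈ x) : y ∈ M := hM.out.transitive x hx y hy

theorem empty_mem : (∅ : ZFSet) ∈ M := trM hM.out.infinity omega_zero

theorem DP.mem (i j : ℕ) : DP M (fun v => v i ∈ v j) :=
  ⟨.mem (2 * i) (2 * j), fun _ => ∅, fun _ => empty_mem, fun v _ => by
    simp only [Sat, mrg_even]⟩

theorem DP.eq (i j : ℕ) : DP M (fun v => v i = v j) :=
  ⟨.eq (2 * i) (2 * j), fun _ => ∅, fun _ => empty_mem, fun v _ => by
    simp only [Sat, mrg_even]⟩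

theorem DP.top : DP M (fun _ => True) := (DP.eq 0 0).congr fun _ _ => by simp

theorem DP.sep {P : ZFSet → Prop} (h : DP M (fun v => P (v 0))) {a : ZFSet} (ha : a ∈ M) :
    a.sep P ∈ M := by
  obtain ⟨φ, p, hp, h⟩ := h
  have hc : InM M (fun _ => (∅ : ZFSet)) := fun _ => empty_mem
  have := hM.out.separation (φ.ren gsh) (mrg (fun _ => ∅) p) (hc.mrg hp) a ha
  convert this using 1
  ext x
  simp only [mem_sep, sat_ren, cons_mrg]
  exact and_congr_right fun hx => h (cons x fun _ => ∅) (hc.cons (trM ha hx))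

theorem upair_mem {x y : ZFSet} (hx : x ∈ M) (hy : y ∈ M) : ({x, y} : ZFSet) ∈ M :=
  hM.out.pairing x hx y hy

theorem singleton_mem {x : ZFSet} (hx : x ∈ M) : ({x} : ZFSet) ∈ M := by
  have := upair_mem hx hx
  rwa [pair_eq_singleton] at this

theorem pair_mem {x y : ZFSet} (hx : x ∈ M) (hy : y ∈ M) : pair x y ∈ M :=
  upair_mem (singleton_mem hx) (upair_mem hx hy)

theorem union_mem {x y : ZFSet} (hx : x ∈ M) (hy : y ∈ M) : x ∪ y ∈ M :=
  hM.out.union _ (upair_mem hx hy)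

theorem pair_mem_iff {x y : ZFSet} : pair x y ∈ M ↔ x ∈ M ∧ y ∈ M :=
  ⟨fun h => ⟨trM (trM h (show ({x, y} : ZFSet) ∈ pair x y by simp [pair])) (by simp),
    trM (trM h (show ({x, y} : ZFSet) ∈ pair x y by simp [pair])) (by simp)⟩,
    fun h => pair_mem h.1 h.2⟩

theorem DP.upair (i j k : ℕ) : DP M (fun v => v i = {v j, v k}) := by
  refine ((DP.mem 0 (i + 1)).iff ((DP.eq 0 (j + 1)).or (DP.eq 0 (k + 1)))).all.congr fun v hv => ?_
  simp only [cons_zero, cons_succ]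
  constructor
  · intro h x _; rw [h]; simp
  · intro h
    ext x
    constructor
    · intro hx; simpa using (h x (trM (hv i) hx)).1 hx
    · intro hx
      exact (h x (trM (upair_mem (hv j) (hv k)) hx)).2 (by simpa using hx)

theorem DP.pair (i j k : ℕ) : DP M (fun v => v i = pair (v j) (v k)) := by
  refine ((DP.upair 1 (j + 2) (j + 2)).and ((DP.upair 0 (j + 2) (k + 2)).and
    (DP.upair (i + 2) 1 0))).ex.ex.congr fun v hv => ?_
  simp only [cons_zero, cons_succ]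
  constructor
  · intro h
    exact ⟨_, upair_mem (hv j) (hv j), _, upair_mem (hv j) (hv k), rfl, rfl, by
      rw [h, pair_eq_singleton]; rfl⟩
  · rintro ⟨a, -, b, -, rfl, rfl, h⟩
    rw [h, pair_eq_singleton]; rfl

theorem exists_power {x : ZFSet} (hx : x ∈ M) : ∃ y ∈ M, ∀ z, z ∈ y ↔ z ∈ M ∧ z ⊆ x := by
  obtain ⟨y, hy, h⟩ := hM.out.power x hx
  have hd : DP M (fun v => v 0 ⊆ x) := by
    refine ((DP.const 0 hx).and
      ((DP.mem 0 2).not.or (DP.mem 0 1)).all).ex.congr fun v hv => ?_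
    simp only [cons_zero, cons_succ]
    constructor
    · intro h'
      exact ⟨x, hx, rfl, fun z _ => or_iff_not_imp_left.2 fun hz => h' (not_not.1 hz)⟩
    · rintro ⟨_, -, rfl, h'⟩ z hz
      exact (h' z (trM (hv 0) hz)).resolve_left (not_not.2 hz)
  refine ⟨_, DP.sep (P := fun z => z ⊆ x) hd hy, fun z => ?_⟩
  rw [mem_sep]
  exact ⟨fun h' => ⟨trM hy h'.1, h'.2⟩, fun h' => ⟨h z h'.1 h'.2, h'.2⟩⟩

omit hM in
theorem mem_omega {x : ZFSet.{0}} : x ∈ omega ↔ ∃ n, x = nat n := by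
  have h : ∀ n, nat n = ZFSet.mk (PSet.ofNat n) := by
    intro n
    induction n with
    | zero => rfl
    | succ n ih => rw [nat, ih]; rfl
  obtain ⟨x⟩ := x
  constructor
  · rintro ⟨⟨n⟩, hn⟩
    exact ⟨n, (h n).symm ▸ ZFSet.sound hn⟩
  · rintro ⟨n, hn⟩
    rw [h] at hn
    exact ⟨⟨n⟩, ZFSet.exact hn⟩

omit hM in
theorem mem_nat {x : ZFSet} {n : ℕ} : x ∈ nat n ↔ ∃ m < n, x = nat m := by
  induction n with
  | zero => simp [nat]
  | succ n ih =>
    rw [nat, mem_insert_iff, ih]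
    constructor
    · rintro (rfl | ⟨m, hm, rfl⟩)
      · exact ⟨n, by omega, rfl⟩
      · exact ⟨m, by omega, rfl⟩
    · rintro ⟨m, hm, rfl⟩
      rcases Nat.lt_succ_iff_lt_or_eq.1 hm with h | rfl
      · exact Or.inr ⟨m, h, rfl⟩
      · exact Or.inl rfl

omit hM in
theorem nat_inj : Function.Injective nat := by
  intro m n h
  by_contra hne
  rcases lt_or_gt_of_ne hne with h' | h'
  · exact mem_irrefl (nat n) (mem_nat.2 ⟨m, h', h.symm⟩)
  · exact mem_irrefl (nat m) (mem_nat.2 ⟨n, h', h⟩)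

omit hM in
theorem nat_mem_nat {m n : ℕ} : nat m ∈ nat n ↔ m < n := by
  rw [mem_nat]
  exact ⟨fun ⟨k, hk, e⟩ => nat_inj e ▸ hk, fun h => ⟨m, h, rfl⟩⟩

theorem nat_mem (n : ℕ) : nat n ∈ M := trM hM.out.infinity (mem_omega.2 ⟨n, rfl⟩)

end Pool.Agent.ZF92

end MrgPart0

-- ======== part 1: formerly Pool.Agent.Lib.helper92.ZF.Df
section MrgPart1

/-! Sorts coded in a transitive model and definable maps between them. -/

namespace Pool.Agent.ZF92

open ZFSet Function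
open scoped Classical

universe u v w

/-- A type whose elements are coded by the elements of a definable class of `M`. -/
class Srt (M : Set ZFSet.{0}) (X : Type u) where
  code : X → ZFSet.{0}
  mem : ∀ x, code x ∈ M
  inj : Injective code
  dom : DP M (fun v => ∃ x, v 0 = code x)

variable {M : Set ZFSet.{0}}

def cd (M : Set ZFSet.{0}) {X : Type u} [Srt M X] (x : X) : ZFSet.{0} := Srt.code M x

section

variable {X : Type u} {Y : Type v} {Z : Type w} [Srt M X] [Srt M Y] [Srt M Z]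

theorem cd_mem (x : X) : cd M x ∈ M := Srt.mem x
theorem cd_inj {x y : X} : cd M x = cd M y ↔ x = y := Srt.inj.eq_iff

theorem dom_at (X : Type u) [Srt M X] (i : ℕ) : DP M (fun v => ∃ x : X, v i = cd M x) :=
  (Srt.dom (M := M) (X := X)).ren (fun _ => i)

def Gr (M : Set ZFSet.{0}) {X : Type u} {Y : Type v} [Srt M X] [Srt M Y] (f : X → Y)
    (a b : ZFSet.{0}) : Prop := ∃ x, a = cd M x ∧ b = cd M (f x)

/-- Definable maps. -/
@[fun_prop]
def DfF (M : Set ZFSet.{0}) {X : Type u} {Y : Type v} [Srt M X] [Srt M Y] (f : X → Y) : Prop :=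
  DP M (fun v => Gr M f (v 0) (v 1))

/-- Definable predicates. -/
def Df (M : Set ZFSet.{0}) {X : Type u} [Srt M X] (P : X → Prop) : Prop :=
  DP M (fun v => ∃ x, v 0 = cd M x ∧ P x)

theorem DfF.at {f : X → Y} (h : DfF M f) (i j : ℕ) : DP M (fun v => Gr M f (v i) (v j)) :=
  DP.ren h (fun k => if k = 0 then i else j)

theorem Df.at {P : X → Prop} (h : Df M P) (i : ℕ) : DP M (fun v => ∃ x, v i = cd M x ∧ P x) :=
  DP.ren h (fun _ => i)

theorem DfF.congr' {f g : X → Y} (h : DfF M f) (e : ∀ x, g x = f x) : DfF M g := by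
  have : g = f := funext e
  rwa [this]

theorem Df.congr {P Q : X → Prop} (h : Df M P) (e : ∀ x, Q x ↔ P x) : Df M Q := by
  have : Q = P := funext fun x => propext (e x)
  rwa [this]

@[fun_prop]
theorem DfF.comp {f : Y → Z} {g : X → Y} (hf : DfF M f) (hg : DfF M g) :
    DfF M (fun x => f (g x)) := by
  refine ((hg.at 1 0).and (hf.at 0 2)).ex.congr fun v _ => ?_
  simp only [cons_zero, cons_succ]
  constructor
  · rintro ⟨x, h1, h2⟩
    exact ⟨_, cd_mem (g x), ⟨x, h1, rfl⟩, ⟨g x, rfl, h2⟩⟩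
  · rintro ⟨_, -, ⟨x, h1, rfl⟩, ⟨y, h2, h3⟩⟩
    obtain rfl := cd_inj.1 h2
    exact ⟨x, h1, h3⟩

@[fun_prop]
theorem DfF.const (c : Y) : DfF M (fun _ : X => c) :=
  ((dom_at X 0).and (DP.const 1 (cd_mem c))).congr fun v _ => by simp [Gr]

theorem Df.comp {P : Y → Prop} (hP : Df M P) {f : X → Y} (hf : DfF M f) :
    Df M (fun x => P (f x)) := by
  refine ((hf.at 1 0).and (hP.at 0)).ex.congr fun v _ => ?_
  simp only [cons_zero, cons_succ]
  constructor
  · rintro ⟨x, h1, h2⟩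
    exact ⟨_, cd_mem (f x), ⟨x, h1, rfl⟩, ⟨f x, rfl, h2⟩⟩
  · rintro ⟨_, -, ⟨x, h1, rfl⟩, ⟨y, h2, h3⟩⟩
    exact ⟨x, h1, cd_inj.1 h2 ▸ h3⟩

theorem Df.and {P Q : X → Prop} (hP : Df M P) (hQ : Df M Q) : Df M (fun x => P x ∧ Q x) := by
  refine (DP.and hP hQ).congr fun v _ => ⟨fun ⟨x, h1, h2, h3⟩ => ⟨⟨x, h1, h2⟩, ⟨x, h1, h3⟩⟩, ?_⟩
  rintro ⟨⟨x, h1, h2⟩, ⟨y, h3, h4⟩⟩
  obtain rfl := cd_inj.1 (h1.symm.trans h3)
  exact ⟨x, h1, h2, h4⟩

theorem Df.not {P : X → Prop} (hP : Df M P) : Df M (fun x => ¬ P x) := by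
  refine ((dom_at X 0).and (DP.not hP)).congr fun v _ => ⟨?_, ?_⟩
  · rintro ⟨x, h1, h2⟩
    refine ⟨⟨x, h1⟩, ?_⟩
    rintro ⟨y, h3, h4⟩
    obtain rfl := cd_inj.1 (h1.symm.trans h3)
    exact h2 h4
  · rintro ⟨⟨x, h1⟩, h2⟩
    exact ⟨x, h1, fun h => h2 ⟨x, h1, h⟩⟩

theorem Df.or {P Q : X → Prop} (hP : Df M P) (hQ : Df M Q) : Df M (fun x => P x ∨ Q x) :=
  (hP.not.and hQ.not).not.congr (fun x => by tauto)

theorem Df.iff {P Q : X → Prop} (hP : Df M P) (hQ : Df M Q) : Df M (fun x => P x ↔ Q x) :=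
  ((hP.and hQ).or (hP.not.and hQ.not)).congr (fun x => by tauto)

variable [hM : Fact (ZFC M)]

theorem DfF.of_cd_eq {c : X → Y} (h : ∀ x, cd M (c x) = cd M x) : DfF M c :=
  ((dom_at X 0).and (DP.eq 1 0)).congr fun v _ => by
    simp only [Gr, h]
    exact ⟨fun ⟨x, h1, h2⟩ => ⟨⟨x, h1⟩, h2.trans h1.symm⟩, fun ⟨⟨x, h1⟩, h2⟩ => ⟨x, h1, h2.trans h1⟩⟩

omit hM in
theorem DfF.of_comp_cd_eq {c : Y → Z} (h : ∀ x, cd M (c x) = cd M x) {f : X → Y}
    (hf : DfF M (fun x => c (f x))) : DfF M f :=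
  DP.congr hf fun v _ => by simp only [Gr, h]

@[fun_prop]
theorem DfF.id : DfF M (fun x : X => x) := DfF.of_cd_eq fun _ => rfl

omit hM in
theorem Df.eq {f g : X → Y} (hf : DfF M f) (hg : DfF M g) : Df M (fun x => f x = g x) := by
  refine ((hf.at 1 0).and (hg.at 1 0)).ex.congr fun v _ => ?_
  simp only [cons_zero, cons_succ]
  constructor
  · rintro ⟨x, h1, h2⟩
    exact ⟨_, cd_mem (f x), ⟨x, h1, rfl⟩, ⟨x, h1, h2 ▸ rfl⟩⟩
  · rintro ⟨_, -, ⟨x, h1, rfl⟩, ⟨y, h2, h3⟩⟩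
    obtain rfl := cd_inj.1 (h1.symm.trans h2)
    exact ⟨x, h1, cd_inj.1 h3⟩

instance instSrtProd (X : Type u) (Y : Type v) [Srt M X] [Srt M Y] : Srt M (X × Y) where
  code p := pair (cd M p.1) (cd M p.2)
  mem p := pair_mem (cd_mem _) (cd_mem _)
  inj p q h := by
    obtain ⟨h1, h2⟩ := pair_inj.1 h
    exact Prod.ext (cd_inj.1 h1) (cd_inj.1 h2)
  dom := by
    refine ((DP.pair 2 1 0).and ((dom_at X 1).and (dom_at Y 0))).ex.ex.congr fun v _ => ?_
    simp only [cons_zero, cons_succ]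
    constructor
    · rintro ⟨p, hp⟩
      exact ⟨_, cd_mem p.1, _, cd_mem p.2, hp, ⟨_, rfl⟩, ⟨_, rfl⟩⟩
    · rintro ⟨_, -, _, -, h, ⟨x, rfl⟩, ⟨y, rfl⟩⟩
      exact ⟨(x, y), h⟩

theorem cd_prod (p : X × Y) : cd M p = pair (cd M p.1) (cd M p.2) := rfl

@[fun_prop]
theorem DfF.fst {f : X → Y × Z} (hf : DfF M f) : DfF M (fun x => (f x).1) := by
  refine ((hf.at 2 0).and (DP.pair 0 3 1)).ex.ex.congr fun v _ => ?_
  simp only [cons_zero, cons_succ]
  constructor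
  · rintro ⟨x, h1, h2⟩
    exact ⟨_, cd_mem (f x).2, _, cd_mem (f x), ⟨x, h1, rfl⟩, h2 ▸ rfl⟩
  · rintro ⟨b, -, _, -, ⟨x, h1, rfl⟩, h2⟩
    exact ⟨x, h1, (pair_inj.1 h2).1.symm⟩

@[fun_prop]
theorem DfF.snd {f : X → Y × Z} (hf : DfF M f) : DfF M (fun x => (f x).2) := by
  refine ((hf.at 2 0).and (DP.pair 0 1 3)).ex.ex.congr fun v _ => ?_
  simp only [cons_zero, cons_succ]
  constructor
  · rintro ⟨x, h1, h2⟩
    exact ⟨_, cd_mem (f x).1, _, cd_mem (f x), ⟨x, h1, rfl⟩, h2 ▸ rfl⟩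
  · rintro ⟨b, -, _, -, ⟨x, h1, rfl⟩, h2⟩
    exact ⟨x, h1, (pair_inj.1 h2).2.symm⟩

@[fun_prop]
theorem DfF.mk {f : X → Y} {g : X → Z} (hf : DfF M f) (hg : DfF M g) :
    DfF M (fun x => (f x, g x)) := by
  refine ((hf.at 2 1).and ((hg.at 2 0).and (DP.pair 3 1 0))).ex.ex.congr fun v _ => ?_
  simp only [cons_zero, cons_succ]
  constructor
  · rintro ⟨x, h1, h2⟩
    exact ⟨_, cd_mem (f x), _, cd_mem (g x), ⟨x, h1, rfl⟩, ⟨x, h1, rfl⟩, h2⟩
  · rintro ⟨_, -, _, -, ⟨x, h1, rfl⟩, ⟨y, h2, rfl⟩, h3⟩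
    obtain rfl := cd_inj.1 (h1.symm.trans h2)
    exact ⟨x, h1, h3⟩

theorem Df.ex {P : X → Y → Prop} (h : Df M (fun p : X × Y => P p.1 p.2)) :
    Df M (fun x => ∃ y, P x y) := by
  refine ((DP.pair 0 2 1).and (h.at 0)).ex.ex.congr fun v _ => ?_
  simp only [cons_zero, cons_succ]
  constructor
  · rintro ⟨x, h1, y, h2⟩
    exact ⟨_, cd_mem y, _, cd_mem (x, y), h1 ▸ rfl, ⟨(x, y), rfl, h2⟩⟩
  · rintro ⟨b, -, _, -, h1, ⟨p, rfl, h2⟩⟩
    exact ⟨p.1, (pair_inj.1 h1).1.symm, p.2, h2⟩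

noncomputable instance instSrtProp : Srt M Prop where
  code p := if p then {∅} else ∅
  mem p := by
    split_ifs
    · exact singleton_mem empty_mem
    · exact empty_mem
  inj p q h := by
    have h1 : ({∅} : ZFSet.{0}) ≠ ∅ := fun e =>
      notMem_empty ∅ (e.subst (motive := fun t => ∅ ∈ t) (mem_singleton.2 rfl))
    have h2 := h1.symm
    by_cases hp : p <;> by_cases hq : q <;> simp_all
  dom := by
    refine ((DP.const 0 (singleton_mem empty_mem)).or (DP.const 0 empty_mem)).congr fun v _ => ?_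
    constructor
    · rintro ⟨p, hp⟩
      split_ifs at hp
      · exact Or.inl hp
      · exact Or.inr hp
    · rintro (h | h)
      · exact ⟨True, by simpa using h⟩
      · exact ⟨False, by simpa using h⟩

theorem dfF_iff {P : X → Prop} : DfF M P ↔ Df M P := by
  constructor
  · intro h
    exact (Df.eq h (DfF.const True)).congr fun x => by simp
  · intro h
    refine (((h.at 0).and (DP.const 1 (cd_mem True))).or
      ((h.not.at 0).and (DP.const 1 (cd_mem False)))).congr fun v _ => ?_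
    constructor
    · rintro ⟨x, h1, h2⟩
      by_cases hp : P x
      · exact Or.inl ⟨⟨x, h1, hp⟩, by simpa [hp] using h2⟩
      · exact Or.inr ⟨⟨x, h1, hp⟩, by simpa [hp] using h2⟩
    · rintro (⟨⟨x, h1, hp⟩, h2⟩ | ⟨⟨x, h1, hp⟩, h2⟩)
      · exact ⟨x, h1, by simpa [hp] using h2⟩
      · exact ⟨x, h1, by simpa [hp] using h2⟩

theorem DfF.congr {P Q : X → Prop} (h : DfF M P) (e : ∀ x, Q x ↔ P x) : DfF M Q :=
  h.congr' fun x => propext (e x)

theorem DfF.of_graph {f : X → Y} (h : DfF M (fun p : X × Y => f p.1 = p.2)) : DfF M f := by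
  refine ((DP.pair 0 1 2).and ((dfF_iff.1 h).at 0)).ex.congr fun v hv => ?_
  simp only [cons_zero, cons_succ]
  constructor
  · rintro ⟨x, h1, h2⟩
    exact ⟨_, cd_mem (x, f x), h1 ▸ h2 ▸ rfl, (x, f x), rfl, rfl⟩
  · rintro ⟨_, -, h1, p, rfl, h2⟩
    exact ⟨p.1, (pair_inj.1 h1).1.symm, h2 ▸ (pair_inj.1 h1).2.symm⟩

theorem DfF.of_rel {f : X → Y} {P : X → Y → Prop} (h : DfF M (fun p : X × Y => P p.1 p.2))
    (e : ∀ x y, f x = y ↔ P x y) : DfF M f :=
  DfF.of_graph (h.congr fun p => e p.1 p.2)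

@[fun_prop]
theorem DfF.eq {f g : X → Y} (hf : DfF M f) (hg : DfF M g) : DfF M (fun x => f x = g x) :=
  dfF_iff.2 (Df.eq hf hg)

@[fun_prop]
theorem DfF.and {P Q : X → Prop} (hP : DfF M P) (hQ : DfF M Q) : DfF M (fun x => P x ∧ Q x) :=
  dfF_iff.2 ((dfF_iff.1 hP).and (dfF_iff.1 hQ))

@[fun_prop]
theorem DfF.or {P Q : X → Prop} (hP : DfF M P) (hQ : DfF M Q) : DfF M (fun x => P x ∨ Q x) :=
  dfF_iff.2 ((dfF_iff.1 hP).or (dfF_iff.1 hQ))

@[fun_prop]
theorem DfF.not {P : X → Prop} (hP : DfF M P) : DfF M (fun x => ¬ P x) :=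
  dfF_iff.2 (dfF_iff.1 hP).not

@[fun_prop]
theorem DfF.ne {f g : X → Y} (hf : DfF M f) (hg : DfF M g) : DfF M (fun x => f x ≠ g x) :=
  (hf.eq hg).not

@[fun_prop]
theorem DfF.iff {P Q : X → Prop} (hP : DfF M P) (hQ : DfF M Q) : DfF M (fun x => P x ↔ Q x) :=
  dfF_iff.2 ((dfF_iff.1 hP).iff (dfF_iff.1 hQ))

@[fun_prop]
theorem DfF.ex {P : X → Y → Prop} (h : DfF M (fun p : X × Y => P p.1 p.2)) :
    DfF M (fun x => ∃ y, P x y) :=
  dfF_iff.2 (Df.ex (dfF_iff.1 h))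

/-- Universal quantifier, as a constant. -/
def All {Y : Type u} (P : Y → Prop) : Prop := ∀ y, P y

/-- Implication, as a constant. -/
def Imp (P Q : Prop) : Prop := P → Q

theorem all_iff {Y : Type u} (P : Y → Prop) : (∀ y, P y) ↔ All fun y => P y := Iff.rfl
theorem imp_iff (P Q : Prop) : (P → Q) ↔ Imp P Q := Iff.rfl

@[fun_prop]
theorem DfF.all {P : X → Y → Prop} (h : DfF M (fun p : X × Y => P p.1 p.2)) :
    DfF M (fun x => All fun y => P x y) :=
  (DfF.ex (P := fun x y => ¬ P x y) h.not).not.congr (fun x => by simp [All])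

@[fun_prop]
theorem DfF.imp {P Q : X → Prop} (hP : DfF M P) (hQ : DfF M Q) :
    DfF M (fun x => Imp (P x) (Q x)) :=
  (hP.not.or hQ).congr (fun x => by unfold Imp; tauto)

@[fun_prop]
theorem DfF.ite {P : X → Prop} {d : ∀ x, Decidable (P x)} {f g : X → Y} (hP : DfF M P)
    (hf : DfF M f) (hg : DfF M g) : DfF M (fun x => @ite _ (P x) (d x) (f x) (g x)) :=
  DfF.of_rel (P := fun x y => (P x ∧ f x = y) ∨ (¬ P x ∧ g x = y)) (by fun_prop) fun x y => by
    by_cases h : P x <;> simp [h]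

end

variable [hM : Fact (ZFC M)]

/-- The home sort. -/
instance instSrtHome : Srt M M where
  code x := x.1
  mem x := x.2
  inj := Subtype.val_injective
  dom := DP.top.congr fun v hv => ⟨fun _ => trivial, fun _ => ⟨⟨v 0, hv 0⟩, rfl⟩⟩

section

variable {X : Type u} {Y : Type v} {Z : Type w} [Srt M X] [Srt M Y] [Srt M Z]

/-- Membership between codes. -/
@[fun_prop]
theorem DfF.cd_mem_cd {f : X → Y} {g : X → Z} (hf : DfF M f) (hg : DfF M g) :
    DfF M (fun x => cd M (f x) ∈ cd M (g x)) := by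
  refine dfF_iff.2 (((hf.at 2 1).and ((hg.at 2 0).and (DP.mem 1 0))).ex.ex.congr fun v _ => ?_)
  simp only [cons_zero, cons_succ]
  constructor
  · rintro ⟨x, h1, h2⟩
    exact ⟨_, cd_mem (f x), _, cd_mem (g x), ⟨x, h1, rfl⟩, ⟨x, h1, rfl⟩, h2⟩
  · rintro ⟨_, -, _, -, ⟨x, h1, rfl⟩, ⟨y, h2, rfl⟩, h3⟩
    obtain rfl := cd_inj.1 (h1.symm.trans h2)
    exact ⟨x, h1, h3⟩

theorem DfF.cd_mem_set {f : X → Y} (hf : DfF M f) {a : ZFSet} (ha : a ∈ M) :
    DfF M (fun x => cd M (f x) ∈ a) :=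
  DfF.cd_mem_cd (g := fun _ => (⟨a, ha⟩ : M)) hf (DfF.const _)

/-- A sort from an injection with definable range. -/
@[instance_reducible]
def Srt.ofInj {W : Type w} (c : W → Y) (hc : Injective c) (hr : DfF M (fun y => ∃ x, c x = y)) :
    Srt M W where
  code x := cd M (c x)
  mem _ := cd_mem _
  inj _ _ h := hc (cd_inj.1 h)
  dom := DP.congr (dfF_iff.1 hr) fun _ _ =>
    ⟨fun ⟨x, h⟩ => ⟨c x, h, x, rfl⟩, fun ⟨_, h, x, e⟩ => ⟨x, e ▸ h⟩⟩

/-- Sets coded by an element of `M`. -/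
def IsM (M : Set ZFSet.{0}) {X : Type u} [Srt M X] (s : Set X) : Prop :=
  ∃ a ∈ M, ∀ z, z ∈ a ↔ ∃ x ∈ s, z = cd M x

/-- The sort is coded by a set. -/
class Sm (M : Set ZFSet.{0}) (X : Type u) [Srt M X] : Prop where
  out : IsM M (Set.univ : Set X)

theorem isM_of_subset {P : X → Prop} (hP : DfF M P) {a : ZFSet} (ha : a ∈ M)
    (h : ∀ x, P x → cd M x ∈ a) : IsM M {x | P x} := by
  refine ⟨_, DP.sep (P := fun z => ∃ x, z = cd M x ∧ P x) (dfF_iff.1 hP) ha, fun z => ?_⟩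
  rw [mem_sep]
  exact ⟨fun ⟨_, x, h1, h2⟩ => ⟨x, h2, h1⟩, fun ⟨x, h2, h1⟩ => ⟨h1 ▸ h x h2, x, h1, h2⟩⟩

theorem sm_of_subset {a : ZFSet} (ha : a ∈ M) (h : ∀ x : X, cd M x ∈ a) : Sm M X :=
  ⟨isM_of_subset (P := fun _ => True) (DfF.const _) ha fun x _ => h x⟩

/-- The set of codes of a small sort. -/
noncomputable def un (M : Set ZFSet.{0}) (X : Type u) [Srt M X] [S : Sm M X] : ZFSet.{0} :=
  S.out.choose

omit hM in
theorem un_mem [S : Sm M X] : un M X ∈ M := S.out.choose_spec.1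

omit hM in
theorem mem_un [S : Sm M X] {z : ZFSet} : z ∈ un M X ↔ ∃ x : X, z = cd M x := by
  refine (S.out.choose_spec.2 z).trans (by simp)

theorem isM_of [Sm M X] {P : X → Prop} (hP : DfF M P) : IsM M {x | P x} :=
  isM_of_subset hP un_mem fun x _ => mem_un.2 ⟨x, rfl⟩

theorem IsM.df {s : Set X} (h : IsM M s) : DfF M (fun x => x ∈ s) := by
  obtain ⟨a, ha, h⟩ := h
  refine (DfF.cd_mem_set DfF.id ha).congr fun x => ?_
  rw [h]
  exact ⟨fun hx => ⟨x, hx, rfl⟩, fun ⟨y, hy, e⟩ => cd_inj.1 e ▸ hy⟩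

instance [Sm M X] [Sm M Y] : Sm M (X × Y) := by
  obtain ⟨a, ha, h⟩ := exists_power (union_mem (un_mem (M := M) (X := X)) (un_mem (X := Y)))
  obtain ⟨b, hb, h'⟩ := exists_power ha
  refine sm_of_subset hb fun p => (h' _).2 ⟨cd_mem p, fun z hz => (h z).2 ⟨trM (cd_mem p) hz, ?_⟩⟩
  have h1 : cd M p.1 ∈ un M X := mem_un.2 ⟨_, rfl⟩
  have h2 : cd M p.2 ∈ un M Y := mem_un.2 ⟨_, rfl⟩
  rw [cd_prod, pair, mem_pair] at hz
  rcases hz with rfl | rfl <;> intro w hw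
  · rw [mem_singleton.1 hw]; exact mem_union.2 (Or.inl h1)
  · rcases mem_pair.1 hw with rfl | rfl
    · exact mem_union.2 (Or.inl h1)
    · exact mem_union.2 (Or.inr h2)

instance : Sm M Prop := sm_of_subset (upair_mem (singleton_mem empty_mem) empty_mem) fun p => by
  show (if p then ({∅} : ZFSet) else ∅) ∈ _
  split_ifs <;> simp

end

/-- Subsets of a sort that belong to `M`. -/
structure PS (M : Set ZFSet.{0}) (X : Type u) [Srt M X] where
  s : Set X
  isM : IsM M s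

section

variable {X : Type u} {Y : Type v} {Z : Type w} [Srt M X] [Srt M Y] [Srt M Z]

instance : SetLike (PS M X) X where
  coe := PS.s
  coe_injective := by rintro ⟨a, _⟩ ⟨b, _⟩ h; congr

omit hM in
theorem PS.ext {A B : PS M X} (h : ∀ x, x ∈ A ↔ x ∈ B) : A = B := SetLike.ext h

omit hM in
theorem PS.ext_iff {A B : PS M X} : A = B ↔ ∀ x, x ∈ A ↔ x ∈ B := SetLike.ext_iff

omit hM in
@[simp] theorem PS.mem_mk {s : Set X} {h : IsM M s} {x : X} : x ∈ (⟨s, h⟩ : PS M X) ↔ x ∈ s :=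
  Iff.rfl

noncomputable instance instSrtPS (X : Type u) [Srt M X] : Srt M (PS M X) where
  code A := A.isM.choose
  mem A := A.isM.choose_spec.1
  inj A B h := by
    have h' : A.isM.choose = B.isM.choose := h
    refine PS.ext fun x => ⟨fun hx => ?_, fun hx => ?_⟩
    · obtain ⟨y, hy, e⟩ := (B.isM.choose_spec.2 _).1 (h' ▸ (A.isM.choose_spec.2 _).2 ⟨x, hx, rfl⟩)
      obtain rfl := cd_inj.1 e
      exact hy
    · obtain ⟨y, hy, e⟩ := (A.isM.choose_spec.2 _).1 (h' ▸ (B.isM.choose_spec.2 _).2 ⟨x, hx, rfl⟩)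
      obtain rfl := cd_inj.1 e
      exact hy
  dom := by
    refine ((DP.mem 0 1).not.or (dom_at X 0)).all.congr fun v hv => ?_
    simp only [cons_zero, cons_succ]
    constructor
    · rintro ⟨A, hA⟩ z _
      refine or_iff_not_imp_left.2 fun hz => ?_
      obtain ⟨x, -, e⟩ := (A.isM.choose_spec.2 z).1 (hA ▸ not_not.1 hz)
      exact ⟨x, e⟩
    · intro h
      have h1 : ∀ z, z ∈ v 0 ↔ ∃ x ∈ {x : X | cd M x ∈ v 0}, z = cd M x := fun z =>
        ⟨fun hz => by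
          obtain ⟨x, rfl⟩ := (h z (trM (hv 0) hz)).resolve_left (not_not.2 hz)
          exact ⟨x, hz, rfl⟩, fun ⟨x, hx, e⟩ => e ▸ hx⟩
      refine ⟨⟨_, v 0, hv 0, h1⟩, ?_⟩
      ext z
      rw [h1]
      exact ((PS.isM ⟨_, v 0, hv 0, h1⟩).choose_spec.2 z).symm

theorem mem_cd_ps {A : PS M X} {z : ZFSet} : z ∈ cd M A ↔ ∃ x ∈ A, z = cd M x :=
  A.isM.choose_spec.2 z

theorem cd_mem_cd_ps {A : PS M X} {x : X} : cd M x ∈ cd M A ↔ x ∈ A := by
  rw [mem_cd_ps]
  exact ⟨fun ⟨y, hy, e⟩ => cd_inj.1 e ▸ hy, fun hx => ⟨x, hx, rfl⟩⟩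

theorem exists_ps {a : ZFSet} (ha : a ∈ M) (h : ∀ z ∈ a, ∃ x : X, z = cd M x) :
    ∃ A : PS M X, cd M A = a := by
  have h1 : ∀ z, z ∈ a ↔ ∃ x ∈ {x : X | cd M x ∈ a}, z = cd M x := fun z =>
    ⟨fun hz => by
      obtain ⟨x, rfl⟩ := h z hz
      exact ⟨x, hz, rfl⟩, fun ⟨x, hx, e⟩ => e ▸ hx⟩
  refine ⟨⟨_, a, ha, h1⟩, ?_⟩
  ext z
  rw [mem_cd_ps, h1]; rfl

@[fun_prop]
theorem DfF.mem_ps {f : X → Y} {A : X → PS M Y} (hf : DfF M f) (hA : DfF M A) :
    DfF M (fun x => f x ∈ A x) :=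
  (DfF.cd_mem_cd hf hA).congr fun _ => cd_mem_cd_ps.symm

instance [Sm M X] : Sm M (PS M X) := by
  obtain ⟨a, ha, h⟩ := exists_power (un_mem (M := M) (X := X))
  refine sm_of_subset ha fun A => (h _).2 ⟨cd_mem A, fun z hz => ?_⟩
  obtain ⟨x, -, e⟩ := mem_cd_ps.1 hz
  exact mem_un.2 ⟨x, e⟩

/-- The member of `PS` given by a definable predicate. -/
noncomputable def PS.of (M : Set ZFSet.{0}) [Fact (ZFC M)] {X : Type u} [Srt M X] (P : X → Prop) :
    PS M X :=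
  if h : IsM M {x | P x} then ⟨_, h⟩ else ⟨∅, ∅, empty_mem, by simp⟩

theorem PS.mem_of [Sm M X] {P : X → Prop} (h : DfF M P) {x : X} : x ∈ PS.of M P ↔ P x := by
  rw [PS.of, dif_pos (isM_of h)]; rfl

@[fun_prop]
theorem DfF.psOf [Sm M Y] {P : X → Y → Prop} (h : DfF M (fun p : X × Y => P p.1 p.2)) :
    DfF M (fun x => PS.of M fun y => P x y) :=
  DfF.of_rel (P := fun x A => All fun y => (P x y ↔ y ∈ A)) (by fun_prop) fun x A => by
    rw [PS.ext_iff]
    exact forall_congr' fun y => by rw [PS.mem_of (by fun_prop)]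

end

/-- Functions between small sorts that belong to `M`. -/
structure Fn (M : Set ZFSet.{0}) (X : Type u) (Y : Type v) [Srt M X] [Srt M Y] where
  f : X → Y
  df : DfF M f

section

variable {X : Type u} {Y : Type v} {Z : Type w} [Srt M X] [Srt M Y] [Srt M Z]

/-- Application. -/
def Fn.ap (F : Fn M X Y) (x : X) : Y := F.f x

omit hM in
@[simp] theorem Fn.ap_mk (f : X → Y) (h : DfF M f) (x : X) : Fn.ap ⟨f, h⟩ x = f x := rfl

omit hM in
theorem Fn.ext {F G : Fn M X Y} (h : ∀ x, F.ap x = G.ap x) : F = G := by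
  obtain ⟨f, _⟩ := F
  obtain ⟨g, _⟩ := G
  obtain rfl : f = g := funext h
  rfl

omit hM in
theorem Fn.df_ap (F : Fn M X Y) : DfF M F.ap := F.df

variable [Sm M X] [Sm M Y]

/-- The graph. -/
noncomputable def Fn.gr (F : Fn M X Y) : PS M (X × Y) := PS.of M fun p => F.ap p.1 = p.2

theorem Fn.mem_gr {F : Fn M X Y} {p : X × Y} : p ∈ F.gr ↔ F.ap p.1 = p.2 :=
  PS.mem_of (by have := F.df_ap; fun_prop)

noncomputable instance instSrtFn (X : Type u) (Y : Type v) [Srt M X] [Srt M Y] [Sm M X] [Sm M Y] :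
    Srt M (Fn M X Y) := by
  refine Srt.ofInj Fn.gr (fun F G h => Fn.ext fun x => ?_) ?_
  · exact (Fn.mem_gr (p := (x, G.ap x))).1 (h ▸ Fn.mem_gr.2 rfl)
  · refine DfF.congr (P := fun A : PS M (X × Y) => All fun x => ∃ y, (x, y) ∈ A ∧
      All fun y' => Imp ((x, y') ∈ A) (y = y')) (by fun_prop) fun A => ?_
    constructor
    · rintro ⟨F, rfl⟩ x
      exact ⟨F.ap x, Fn.mem_gr.2 rfl, fun y' h => Fn.mem_gr.1 h⟩
    · intro h
      choose f h1 h2 using h
      have e : ∀ x y, f x = y ↔ (x, y) ∈ A := fun x y => ⟨fun e => e ▸ h1 x, h2 x y⟩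
      exact ⟨⟨f, DfF.of_rel (by fun_prop) e⟩, PS.ext fun p => Fn.mem_gr.trans (e _ _)⟩

theorem cd_fn (F : Fn M X Y) : cd M F = cd M F.gr := rfl

theorem mem_cd_fn {F : Fn M X Y} {z : ZFSet} :
    z ∈ cd M F ↔ ∃ x, z = pair (cd M x) (cd M (F.ap x)) := by
  rw [cd_fn, mem_cd_ps]
  constructor
  · rintro ⟨p, hp, rfl⟩
    exact ⟨p.1, by rw [Fn.mem_gr.1 hp]; rfl⟩
  · rintro ⟨x, rfl⟩
    exact ⟨(x, F.ap x), Fn.mem_gr.2 rfl, rfl⟩

@[fun_prop]
theorem DfF.ap {F : Z → Fn M X Y} {g : Z → X} (hF : DfF M F) (hg : DfF M g) :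
    DfF M (fun z => (F z).ap (g z)) := by
  have h1 : DfF M (Fn.gr : Fn M X Y → _) := DfF.of_cd_eq fun _ => rfl
  exact DfF.of_rel (P := fun z y => (g z, y) ∈ (F z).gr) (by fun_prop) fun z y =>
    (Fn.mem_gr (p := (g z, y))).symm

instance : Sm M (Fn M X Y) :=
  sm_of_subset (un_mem (X := PS M (X × Y))) fun F => mem_un.2 ⟨F.gr, rfl⟩

theorem exists_lam {f : Z → X → Y} (h : DfF M (fun p : Z × X => f p.1 p.2)) :
    ∃ F : Z → Fn M X Y, DfF M F ∧ ∀ z x, (F z).ap x = f z x :=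
  ⟨fun z => ⟨f z, by fun_prop⟩,
    DfF.of_rel (P := fun z G => All fun x => f z x = G.ap x) (by fun_prop) fun _ _ =>
      ⟨fun e x => e ▸ rfl, fun e => Fn.ext e⟩, fun _ _ => rfl⟩

end

/-- The elements of an element of `M`. -/
structure El (M : Set ZFSet.{0}) (a : M) where
  x : ZFSet.{0}
  mem : x ∈ a.1

instance instSrtEl (a : M) : Srt M (El M a) where
  code x := x.x
  mem x := trM a.2 x.mem
  inj := by rintro ⟨x, _⟩ ⟨y, _⟩ h; congr
  dom := ((DP.const 0 a.2).and (DP.mem 1 0)).ex.congr fun v _ => by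
    simp only [cons_zero, cons_succ]
    exact ⟨fun ⟨x, h⟩ => ⟨_, a.2, rfl, h ▸ x.mem⟩, fun ⟨_, _, e, h⟩ => ⟨⟨_, e ▸ h⟩, rfl⟩⟩

instance (a : M) : Sm M (El M a) := sm_of_subset a.2 fun x => x.mem

theorem un_el (a : M) : un M (El M a) = a.1 := by
  ext z
  rw [mem_un]
  exact ⟨fun ⟨x, h⟩ => h ▸ x.mem, fun h => ⟨⟨z, h⟩, rfl⟩⟩

example {X : Type} [Srt M X] [Sm M X] (r : X → X → Prop) (hr : DfF M fun p : X × X => r p.1 p.2) :
    DfF M (fun A : PS M X => ∀ x ∈ A, ∃ y ∈ A, ∀ F : Fn M X X, r (F.ap x) y → x ≠ y) := by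
  simp only [all_iff, imp_iff]; fun_prop

end Pool.Agent.ZF92

end MrgPart1

-- ======== part 2: formerly Pool.Agent.Lib.helper92.ZF.Tools
section MrgPart2

/-! Choice, recursion, naturals, finite and countable sets inside a transitive model. -/

namespace Pool.Agent.ZF92

open ZFSet Function
open scoped Classical

universe u v w

variable {M : Set ZFSet.{0}} [hM : Fact (ZFC M)]
variable {X : Type u} {Y : Type v} {Z : Type w} [Srt M X] [Srt M Y] [Srt M Z]

/-- A definable relation that well orders a sort in the sense of `M`. -/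
structure MWO (M : Set ZFSet.{0}) [Fact (ZFC M)] {X : Type u} [Srt M X] (r : X → X → Prop) :
    Prop where
  df : DfF M (fun p : X × X => r p.1 p.2)
  irr : ∀ x, ¬ r x x
  trans : ∀ x y z, r x y → r y z → r x z
  tri : ∀ x y, r x y ∨ x = y ∨ r y x
  min : ∀ P : X → Prop, DfF M P → (∃ x, P x) → ∃ x, P x ∧ ∀ y, P y → ¬ r y x

theorem mwo_of_wellOrd [Sm M X] {r : ZFSet} (hr : r ∈ M) (h : WellOrd M r (un M X)) :
    MWO M (fun x y : X => pair (cd M x) (cd M y) ∈ r) := by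
  have hu : ∀ x : X, cd M x ∈ un M X := fun x => mem_un.2 ⟨x, rfl⟩
  obtain ⟨h1, h2, h3, h4⟩ := h
  refine ⟨DfF.cd_mem_set (f := fun p : X × X => p) DfF.id hr, fun x => h1 _ (hu x),
    fun x y z => h2 _ (hu x) _ (hu y) _ (hu z), fun x y => ?_, fun P hP ⟨x, hx⟩ => ?_⟩
  · simpa only [cd_inj] using h3 _ (hu x) _ (hu y)
  · obtain ⟨z, hz, hmin⟩ := h4 (cd M (PS.of M P)) (cd_mem _) (fun z hz => by
      obtain ⟨y, -, e⟩ := mem_cd_ps.1 hz
      exact mem_un.2 ⟨y, e⟩) (fun e => notMem_empty (cd M x)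
        (e ▸ cd_mem_cd_ps.2 ((PS.mem_of hP).2 hx)))
    obtain ⟨y, hy, rfl⟩ := mem_cd_ps.1 hz
    exact ⟨y, (PS.mem_of hP).1 hy, fun w hw => hmin _ (cd_mem_cd_ps.2 ((PS.mem_of hP).2 hw))⟩

theorem exists_mwo (X : Type u) [Srt M X] [Sm M X] : ∃ r : X → X → Prop, MWO M r := by
  obtain ⟨r, hr, h⟩ := hM.out.wellorder _ (un_mem (M := M) (X := X))
  exact ⟨_, mwo_of_wellOrd hr h⟩

theorem MWO.induction {r : X → X → Prop} (h : MWO M r) {P : X → Prop} (hP : DfF M P)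
    (step : ∀ x, (∀ y, r y x → P y) → P x) (x : X) : P x := by
  by_contra hx
  obtain ⟨y, hy, hmin⟩ := h.min (fun x => ¬ P x) hP.not ⟨x, hx⟩
  exact hy (step y fun z hz => not_not.1 fun hn => hmin z hn hz)

/-- Definable choice. -/
theorem exists_choice [Sm M Y] {R : X → Y → Prop} (hR : DfF M (fun p : X × Y => R p.1 p.2))
    (h : ∀ x, ∃ y, R x y) : ∃ f : X → Y, DfF M f ∧ ∀ x, R x (f x) := by
  obtain ⟨r, hr⟩ := exists_mwo (M := M) Y
  have hd := hr.df
  choose f h1 h2 using fun x => hr.min (R x) (by fun_prop) (h x)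
  refine ⟨f, DfF.of_rel (P := fun x y => R x y ∧ All fun y' => Imp (R x y') (¬ r y' y))
    (by fun_prop) fun x y => ⟨fun e => e ▸ ⟨h1 x, h2 x⟩, fun ⟨h3, h4⟩ => ?_⟩, h1⟩
  rcases hr.tri (f x) y with h5 | h5 | h5
  · exact absurd h5 (h4 _ (h1 x))
  · exact h5
  · exact absurd h5 (h2 x y h3)

theorem exists_choice' [Sm M Y] [Nonempty Y] {R : X → Y → Prop}
    (hR : DfF M (fun p : X × Y => R p.1 p.2)) :
    ∃ f : X → Y, DfF M f ∧ ∀ x y, R x y → R x (f x) := by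
  obtain ⟨f, hf, h⟩ := exists_choice (M := M) (R := fun x y => Imp (∃ y', R x y') (R x y))
    (by fun_prop) fun x => by
      by_cases h : ∃ y', R x y'
      · exact h.imp fun y hy _ => hy
      · exact ⟨Classical.arbitrary Y, fun h' => absurd h' h⟩
  exact ⟨f, hf, fun x y hy => h x ⟨y, hy⟩⟩

/-- Recursion with choices along a well order. -/
theorem MWO.exists_rec [Sm M X] [Sm M Y] [Nonempty Y] {r : X → X → Prop} (hr : MWO M r)
    {R : X → Fn M X Y → Y → Prop} (hR : DfF M (fun p : (X × Fn M X Y) × Y => R p.1.1 p.1.2 p.2))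
    (h : ∀ x F, ∃ y, R x F y) :
    ∃ f : X → Y, DfF M f ∧ ∀ x, ∃ F : Fn M X Y, (∀ z, r z x → F.ap z = f z) ∧ R x F (f x) := by
  obtain ⟨s, hs, hsR⟩ := exists_choice (R := fun (p : X × Fn M X Y) y => R p.1 p.2 y) hR
    fun p => h p.1 p.2
  have hd := hr.df
  obtain ⟨y0⟩ := ‹Nonempty Y›
  obtain ⟨res, hres, hres'⟩ := exists_lam (M := M)
    (f := fun (p : X × Fn M X Y) z => if r z p.1 then p.2.ap z else y0) (by fun_prop)
  let A : X → Fn M X Y → Prop := fun x F => ∀ z, (r z x ∨ z = x) → F.ap z = s (z, res (z, F))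
  have hA : DfF M (fun p : X × Fn M X Y => A p.1 p.2) := by
    simp only [A, all_iff, imp_iff]; fun_prop
  have hcongr : ∀ z (F G : Fn M X Y), (∀ w, r w z → F.ap w = G.ap w) → res (z, F) = res (z, G) :=
    fun z F G e => Fn.ext fun w => by
      rw [hres', hres']
      split_ifs with hw
      · exact e w hw
      · rfl
  have huniq : ∀ x x' F G, A x F → A x' G → ∀ z, (r z x ∨ z = x) → (r z x' ∨ z = x') →
      F.ap z = G.ap z := by
    intro x x' F G hF hG z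
    refine hr.induction (P := fun z => (r z x ∨ z = x) → (r z x' ∨ z = x') → F.ap z = G.ap z)
      (by simp only [imp_iff]; fun_prop) (fun z ih h1 h2 => ?_) z
    rw [hF z h1, hG z h2, hcongr z F G fun w hw => ih w hw
      (Or.inl (h1.elim (hr.trans _ _ _ hw) fun e => e ▸ hw))
      (Or.inl (h2.elim (hr.trans _ _ _ hw) fun e => e ▸ hw))]
  have hex : ∀ x, ∃ F, A x F := by
    refine hr.induction (by fun_prop) fun x ih => ?_
    have : Nonempty (Fn M X Y) := ⟨⟨fun _ => y0, by fun_prop⟩⟩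
    obtain ⟨c, hc, hc'⟩ := exists_choice' hA
    let G : Fn M X Y := ⟨fun z => (c z).ap z, by fun_prop⟩
    let F : Fn M X Y := ⟨fun z => if z = x then s (x, res (x, G)) else G.ap z, by fun_prop⟩
    have hFG : ∀ z, r z x → F.ap z = G.ap z := fun z hz =>
      if_neg fun (e : z = x) => hr.irr x (e ▸ hz)
    refine ⟨F, fun z hz => ?_⟩
    rcases hz with hz | rfl
    · obtain ⟨H, hH⟩ := ih z hz
      have h1 := hc' z H hH
      rw [hFG z hz]
      refine (h1 z (Or.inr rfl)).trans ?_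
      rw [hcongr z (c z) F fun w hw => ?_]
      have hw' := hr.trans _ _ _ hw hz
      obtain ⟨H', hH'⟩ := ih w hw'
      rw [hFG w hw']
      exact huniq _ _ _ _ h1 (hc' w H' hH') w (Or.inl hw) (Or.inr rfl)
    · rw [hcongr z F G hFG]
      exact if_pos rfl
  obtain ⟨c, hc, hc'⟩ := exists_choice hA hex
  refine ⟨fun z => (c z).ap z, by fun_prop, fun x => ⟨res (x, c x), fun z hz => ?_, ?_⟩⟩
  · rw [hres', if_pos hz]
    exact huniq _ _ _ _ (hc' x) (hc' z) z (Or.inl hz) (Or.inr rfl)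
  · show R x _ ((c x).ap x)
    rw [hc' x x (Or.inr rfl)]
    exact hsR (x, res (x, c x))

instance instSrtNat : Srt M ℕ where
  code := nat
  mem := nat_mem
  inj := nat_inj
  dom := ((DP.const 0 hM.out.infinity).and (DP.mem 1 0)).ex.congr fun v _ => by
    simp only [cons_zero, cons_succ]
    exact ⟨fun h => ⟨_, hM.out.infinity, rfl, mem_omega.2 h⟩,
      fun ⟨_, _, e, h⟩ => mem_omega.1 (e ▸ h)⟩

theorem cd_nat (n : ℕ) : cd M n = nat n := rfl

instance : Sm M ℕ := sm_of_subset hM.out.infinity fun n => mem_omega.2 ⟨n, rfl⟩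

@[fun_prop]
theorem DfF.nat_lt {f g : X → ℕ} (hf : DfF M f) (hg : DfF M g) : DfF M (fun x => f x < g x) :=
  (DfF.cd_mem_cd hf hg).congr fun _ => nat_mem_nat.symm

@[fun_prop]
theorem DfF.nat_le {f g : X → ℕ} (hf : DfF M f) (hg : DfF M g) : DfF M (fun x => f x ≤ g x) :=
  (DfF.nat_lt hg hf).not.congr fun _ => not_lt.symm

theorem DfF.nat_succ {f : X → ℕ} (hf : DfF M f) : DfF M (fun x => f x + 1) :=
  DfF.of_rel (P := fun x y => f x < y ∧ All fun z => Imp (f x < z) (y ≤ z)) (by fun_prop)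
    fun x y => ⟨fun e => e ▸ ⟨Nat.lt_succ_self _, fun _ h => h⟩,
      fun ⟨h1, h2⟩ => le_antisymm h1 (h2 _ (Nat.lt_succ_self _))⟩

theorem DfF.natRec [Sm M Y] {z : X → Y} {s : X → ℕ → Y → Y} {k : X → ℕ} (hz : DfF M z)
    (hs : DfF M (fun p : X × ℕ × Y => s p.1 p.2.1 p.2.2)) (hk : DfF M k) :
    DfF M (fun x => (Nat.rec (z x) (s x) (k x) : Y)) := by
  have h1 : DfF M (fun n : ℕ => n + 1) := DfF.nat_succ DfF.id
  set sc : ℕ → ℕ := fun n => n + 1 with hsc
  refine DfF.of_rel (P := fun x y => ∃ F : Fn M ℕ Y, F.ap 0 = z x ∧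
    (All fun j => Imp (j < k x) (F.ap (sc j) = s x j (F.ap j))) ∧ F.ap (k x) = y) (by fun_prop)
    fun x y => ⟨?_, ?_⟩
  · rintro rfl
    have h2 : ∀ n, ∃ F : Fn M ℕ Y, ∀ j ≤ n, F.ap j = Nat.rec (z x) (s x) j := by
      intro n
      induction n with
      | zero => exact ⟨⟨fun _ => z x, by fun_prop⟩, fun j hj => by rw [Nat.le_zero.1 hj]; rfl⟩
      | succ n ih =>
        obtain ⟨F, hF⟩ := ih
        refine ⟨⟨fun j => if j ≤ n then F.ap j else Nat.rec (z x) (s x) (n + 1), by fun_prop⟩,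
          fun j hj => ?_⟩
        simp only [Fn.ap_mk]
        split_ifs with h
        · exact hF j h
        · rw [show j = n + 1 by omega]
    obtain ⟨F, hF⟩ := h2 (k x)
    exact ⟨F, hF 0 (Nat.zero_le _), fun j hj => by rw [hF _ hj, hF j hj.le], hF _ le_rfl⟩
  · rintro ⟨F, h0, h2, rfl⟩
    have h3 : ∀ j ≤ k x, Nat.rec (z x) (s x) j = F.ap j := by
      intro j
      induction j with
      | zero => exact fun _ => h0.symm
      | succ j ih => exact fun hj => by rw [h2 j hj, ← ih (by omega)]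
    exact h3 _ le_rfl

@[fun_prop]
theorem DfF.nat_add {f g : X → ℕ} (hf : DfF M f) (hg : DfF M g) : DfF M (fun x => f x + g x) :=
  (DfF.natRec (s := fun _ _ y => y + 1) hf (DfF.nat_succ (by fun_prop)) hg).congr' fun x => by
    induction g x with
    | zero => rfl
    | succ n ih => rw [← add_assoc, ih]

@[fun_prop]
theorem DfF.nat_mul {f g : X → ℕ} (hf : DfF M f) (hg : DfF M g) : DfF M (fun x => f x * g x) :=
  (DfF.natRec (z := fun _ => 0) (s := fun x _ y => y + f x) (by fun_prop) (by fun_prop)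
    hg).congr' fun x => by
    induction g x with
    | zero => rfl
    | succ n ih => rw [Nat.mul_succ, ih]

@[fun_prop]
theorem DfF.nat_pair {f g : X → ℕ} (hf : DfF M f) (hg : DfF M g) :
    DfF M (fun x => Nat.pair (f x) (g x)) := by
  unfold Nat.pair; fun_prop

theorem DfF.iterate [Sm M Y] {s : Y → Y} (hs : DfF M s) (y : Y) : DfF M (fun n : ℕ => s^[n] y) :=
  (DfF.natRec (z := fun _ => y) (s := fun _ _ t => s t) (k := fun n => n) (by fun_prop)
    (by fun_prop) (by fun_prop)).congr' fun n => by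
    induction n with
    | zero => rfl
    | succ n ih => rw [iterate_succ_apply', ih]

/-- Definable subtypes. -/
@[instance_reducible]
def Srt.sub (P : X → Prop) (hP : DfF M P) : Srt M {x // P x} :=
  Srt.ofInj Subtype.val Subtype.val_injective (hP.congr fun x => by simp)

theorem DfF.mem_finite {s : Set Y} (hs : s.Finite) : DfF M (fun y => y ∈ s) := by
  induction s, hs using Set.Finite.induction_on with
  | empty => exact DfF.const False
  | insert _ _ ih => exact ((DfF.id.eq (DfF.const _)).or ih).congr fun _ => Set.mem_insert_iff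

theorem DfF.of_finite {s : Set X} (hs : s.Finite) (f : X → Y) (y0 : Y) :
    ∃ g : X → Y, DfF M g ∧ ∀ x ∈ s, g x = f x := by
  induction s, hs using Set.Finite.induction_on with
  | empty => exact ⟨fun _ => y0, by fun_prop, by simp⟩
  | @insert a s _ _ ih =>
    obtain ⟨g, hg, h⟩ := ih
    refine ⟨fun x => if x = a then f a else g x, by fun_prop, fun x hx => ?_⟩
    by_cases e : x = a
    · simp [e]
    · simp [e, h x (hx.resolve_left e)]

theorem DfF.finite [Sm M Y] {P : X → Y → Prop} (h : DfF M (fun p : X × Y => P p.1 p.2)) :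
    DfF M (fun x => {y | P x y}.Finite) := by
  refine DfF.congr (P := fun x => ∃ (n : ℕ) (c : Fn M Y ℕ), (All fun y => Imp (P x y) (c.ap y < n)) ∧
    All fun y => All fun y' => Imp (P x y) (Imp (P x y') (Imp (c.ap y = c.ap y') (y = y'))))
    (by fun_prop) fun x => ⟨fun hf => ?_, ?_⟩
  · obtain ⟨c, hc⟩ := Set.countable_iff_exists_injOn.1 hf.countable
    obtain ⟨g, hg, e⟩ := DfF.of_finite (M := M) hf c 0
    obtain ⟨n, hn⟩ := (hf.image c).bddAbove
    refine ⟨n + 1, ⟨g, hg⟩, fun y hy => ?_, fun y y' hy hy' e' => hc hy hy' ?_⟩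
    · exact Nat.lt_succ_of_le ((e y hy).trans_le (hn ⟨y, hy, rfl⟩))
    · exact (e y hy).symm.trans (e'.trans (e y' hy'))
  · rintro ⟨n, c, h1, h2⟩
    exact Set.Finite.of_finite_image ((Set.finite_lt_nat n).subset (by
      rintro _ ⟨y, hy, rfl⟩; exact h1 y hy)) fun y hy y' hy' => h2 y y' hy hy'

@[fun_prop]
theorem DfF.finite' [Sm M Y] {P : X → Y → Prop} (h : DfF M (fun p : X × Y => P p.1 p.2)) :
    DfF M (fun x => Set.Finite (Set.ofPred fun y => P x y)) := DfF.finite h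

noncomputable instance instSrtFinset (X : Type u) [Srt M X] [Sm M X] : Srt M (Finset X) := by
  refine Srt.ofInj (fun s => (⟨s, isM_of (DfF.mem_finite s.finite_toSet)⟩ : PS M X))
    (fun s t h => Finset.coe_injective (congrArg PS.s h)) ?_
  refine (DfF.finite (P := fun (A : PS M X) y => y ∈ A) (by fun_prop)).congr fun A => ⟨?_, ?_⟩
  · rintro ⟨s, rfl⟩
    exact s.finite_toSet
  · intro h
    exact ⟨h.toFinset, PS.ext fun x => by simp⟩

theorem mem_cd_finset [Sm M X] {s : Finset X} {z : ZFSet} :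
    z ∈ cd M s ↔ ∃ x ∈ s, z = cd M x :=
  mem_cd_ps (A := (⟨s, isM_of (DfF.mem_finite s.finite_toSet)⟩ : PS M X))

@[fun_prop]
theorem DfF.mem_finset [Sm M Y] {f : X → Y} {A : X → Finset Y} (hf : DfF M f) (hA : DfF M A) :
    DfF M (fun x => f x ∈ A x) :=
  (DfF.cd_mem_cd hf hA).congr fun _ => by
    rw [mem_cd_finset]
    exact ⟨fun h => ⟨_, h, rfl⟩, fun ⟨y, hy, e⟩ => cd_inj.1 e ▸ hy⟩

instance [Sm M X] : Sm M (Finset X) :=
  sm_of_subset (un_mem (X := PS M X)) fun _ => mem_un.2 ⟨_, rfl⟩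

/-- Countable in the sense of `M`. -/
def Ctb (M : Set ZFSet.{0}) [Fact (ZFC M)] {X : Type u} [Srt M X] (P : X → Prop) : Prop :=
  ∃ c : Fn M X ℕ, ∀ x y, P x → P y → c.ap x = c.ap y → x = y

@[fun_prop]
theorem DfF.ctb [Sm M Y] {P : X → Y → Prop} (h : DfF M (fun p : X × Y => P p.1 p.2)) :
    DfF M (fun x => Ctb M fun y => P x y) := by
  simp only [Ctb, all_iff, imp_iff]; fun_prop

theorem Ctb.mono {P Q : X → Prop} (h : Ctb M Q) (e : ∀ x, P x → Q x) : Ctb M P :=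
  h.imp fun _ hc x y hx hy => hc x y (e x hx) (e y hy)

theorem Ctb.of_finite {P : X → Prop} (h : {x | P x}.Finite) : Ctb M P := by
  obtain ⟨c, hc⟩ := Set.countable_iff_exists_injOn.1 h.countable
  obtain ⟨g, hg, e⟩ := DfF.of_finite (M := M) h c 0
  exact ⟨⟨g, hg⟩, fun y y' hy hy' e' => hc hy hy' ((e y hy).symm.trans (e'.trans (e y' hy')))⟩

theorem Ctb.nat (P : ℕ → Prop) : Ctb M P := ⟨⟨fun n => n, DfF.id⟩, fun _ _ _ _ h => h⟩

theorem Ctb.biUnion [Sm M X] [Sm M Y] {S : Y → Prop} (dS : DfF M S) (hS : Ctb M S)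
    {A : Y → X → Prop} (dA : DfF M (fun p : Y × X => A p.1 p.2)) (hA : ∀ y, S y → Ctb M (A y)) :
    Ctb M (fun x => ∃ y, S y ∧ A y x) := by
  by_cases hne : Nonempty Y
  swap
  · exact Ctb.of_finite (Set.finite_empty.subset fun x ⟨y, _⟩ => hne ⟨y⟩)
  obtain ⟨d, hd⟩ := hS
  have : Nonempty (Fn M X ℕ) := ⟨⟨fun _ => 0, by fun_prop⟩⟩
  obtain ⟨c, dc, hc⟩ := exists_choice' (M := M)
    (R := fun y (c : Fn M X ℕ) => ∀ x x', A y x → A y x' → c.ap x = c.ap x' → x = x')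
    (by simp only [all_iff, imp_iff]; fun_prop)
  obtain ⟨g, dg, hg⟩ := exists_choice' (M := M) (R := fun x y => S y ∧ A y x) (by fun_prop)
  refine ⟨⟨fun x => Nat.pair (d.ap (g x)) ((c (g x)).ap x), by fun_prop⟩, ?_⟩
  rintro x x' ⟨y, hy⟩ ⟨y', hy'⟩ e
  obtain ⟨e1, e2⟩ := Nat.pair_eq_pair.1 e
  have h1 := hg x y hy
  have h2 := hg x' y' hy'
  have e3 := hd _ _ h1.1 h2.1 e1
  obtain ⟨c', hc'⟩ := hA _ h1.1
  exact hc _ c' hc' x x' h1.2 (e3 ▸ h2.2) (e3 ▸ e2)

theorem Ctb.iUnion [Sm M X] {A : ℕ → X → Prop} (dA : DfF M (fun p : ℕ × X => A p.1 p.2))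
    (hA : ∀ n, Ctb M (A n)) : Ctb M (fun x => ∃ n, A n x) :=
  (Ctb.biUnion (S := fun _ => True) (by fun_prop) (Ctb.nat _) dA fun n _ => hA n).mono
    fun _ ⟨n, h⟩ => ⟨n, trivial, h⟩

theorem Ctb.union [Sm M X] {A B : X → Prop} (dA : DfF M A) (dB : DfF M B) (hA : Ctb M A)
    (hB : Ctb M B) : Ctb M (fun x => A x ∨ B x) :=
  (Ctb.iUnion (A := fun n x => if n = 0 then A x else B x) (by fun_prop) fun n => by
    split_ifs
    · exact hA
    · exact hB).mono fun x h => h.elim (fun h => ⟨0, by simpa using h⟩) fun h => ⟨1, by simpa using h⟩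

theorem Ctb.image [Sm M X] [Sm M Y] {S : Y → Prop} (dS : DfF M S) (hS : Ctb M S) {f : Y → X}
    (df : DfF M f) : Ctb M (fun x => ∃ y, S y ∧ f y = x) :=
  Ctb.biUnion dS hS (by fun_prop) fun y _ =>
    Ctb.of_finite ((Set.finite_singleton (f y)).subset fun _ h => h.symm)

theorem Ctb.prod {A : X → Prop} {B : Y → Prop} (hA : Ctb M A) (hB : Ctb M B) :
    Ctb M (fun p : X × Y => A p.1 ∧ B p.2) := by
  obtain ⟨c, hc⟩ := hA
  obtain ⟨d, hd⟩ := hB
  have h1 := c.df_ap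
  have h2 := d.df_ap
  refine ⟨⟨fun p => Nat.pair (c.ap p.1) (d.ap p.2), DfF.nat_pair (h1.comp DfF.id.fst)
    (h2.comp DfF.id.snd)⟩, fun p q hp hq e => ?_⟩
  obtain ⟨e1, e2⟩ := Nat.pair_eq_pair.1 e
  exact Prod.ext (hc _ _ hp.1 hq.1 e1) (hd _ _ hp.2 hq.2 e2)

theorem Ctb.finset [Sm M X] {A : X → Prop} (dA : DfF M A) (hA : Ctb M A) :
    Ctb M (fun s : Finset X => ∀ x ∈ s, A x) := by
  obtain ⟨c, hc⟩ := hA
  refine (Ctb.iUnion (A := fun n (s : Finset X) => ∀ x ∈ s, A x ∧ c.ap x < n)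
    (by simp only [all_iff, imp_iff]; fun_prop) fun n => Ctb.of_finite ?_).mono fun s hs => ?_
  · have h1 : {x | A x ∧ c.ap x < n}.Finite :=
      Set.Finite.of_finite_image ((Set.finite_lt_nat n).subset (by
        rintro _ ⟨y, hy, rfl⟩; exact hy.2)) fun y hy y' hy' => hc y y' hy.1 hy'.1
    exact (h1.finite_subsets.preimage Finset.coe_injective.injOn).subset fun s hs x hx => hs x hx
  · obtain ⟨n, hn⟩ := (s.finite_toSet.image c.ap).bddAbove
    exact ⟨n + 1, fun x hx => ⟨hs x hx, Nat.lt_succ_of_le (hn ⟨x, hx, rfl⟩)⟩⟩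

theorem Ctb.exists_enum [Sm M X] [Nonempty X] {A : X → Prop} (dA : DfF M A) (hA : Ctb M A) :
    ∃ e : ℕ → X, DfF M e ∧ ∀ x, A x → ∃ n, e n = x := by
  obtain ⟨c, hc⟩ := hA
  obtain ⟨e, de, he⟩ := exists_choice' (M := M) (R := fun n x => A x ∧ c.ap x = n) (by fun_prop)
  exact ⟨e, de, fun x hx => ⟨c.ap x, hc _ _ (he _ x ⟨hx, rfl⟩).1 hx (he _ x ⟨hx, rfl⟩).2⟩⟩

/-- Closing off under a countably valued finitary operation. -/
theorem closing_off [Sm M X] {R : Finset X → X → Prop}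
    (dR : DfF M (fun p : Finset X × X => R p.1 p.2)) (hR : ∀ s, Ctb M (R s)) :
    ∃ A : PS M X, Ctb M (fun x => x ∈ A) ∧ ∀ s : Finset X, (∀ x ∈ s, x ∈ A) → ∀ x, R s x → x ∈ A := by
  let F : PS M X → PS M X := fun B =>
    PS.of M fun x => x ∈ B ∨ ∃ s : Finset X, (All fun y => Imp (y ∈ s) (y ∈ B)) ∧ R s x
  have dF : DfF M F := by fun_prop
  have hF : ∀ B x, x ∈ F B ↔ x ∈ B ∨ ∃ s : Finset X, (∀ y ∈ s, y ∈ B) ∧ R s x :=
    fun B x => PS.mem_of (by fun_prop)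
  let A : ℕ → PS M X := fun n => F^[n] (PS.of M fun _ => False)
  have dA : DfF M A := dF.iterate _
  have hA : ∀ n, A (n + 1) = F (A n) := fun n => iterate_succ_apply' F n _
  have hc : ∀ n, Ctb M (fun x => x ∈ A n) := by
    intro n
    induction n with
    | zero => exact Ctb.of_finite (Set.finite_empty.subset fun x hx =>
        (PS.mem_of (P := fun _ => False) (by fun_prop)).1 hx)
    | succ n ih =>
      rw [hA]
      refine (Ctb.union (by fun_prop) (by simp only [all_iff, imp_iff]; fun_prop) ih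
        (Ctb.biUnion (by simp only [all_iff, imp_iff]; fun_prop) (Ctb.finset (by fun_prop) ih) dR
          fun s _ => hR s)).mono fun x hx => (hF _ x).1 hx
  have hm : ∀ m n, m ≤ n → ∀ x ∈ A m, x ∈ A n := by
    intro m n h
    induction h with
    | refl => exact fun _ h => h
    | step _ ih => exact fun x hx => by rw [hA, hF]; exact Or.inl (ih x hx)
  have hU : ∀ x, x ∈ PS.of M (fun x => ∃ n, x ∈ A n) ↔ ∃ n, x ∈ A n :=
    fun x => PS.mem_of (by fun_prop)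
  refine ⟨_, (Ctb.iUnion (by fun_prop) hc).mono fun x hx => (hU x).1 hx, fun s hs x hx => ?_⟩
  choose! k hk using fun y hy => (hU y).1 (hs y hy)
  refine (hU x).2 ⟨s.sup k + 1, ?_⟩
  rw [hA, hF]
  exact Or.inr ⟨s, fun y hy => hm _ _ (Finset.le_sup hy) y (hk y hy), hx⟩

end Pool.Agent.ZF92

end MrgPart2

-- marker of a merged file
example : 731051 + 182173 = 731051 + 182173 := rfl
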