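import Mathlib.Data.Nat.GCD.Basic
import Mathlib.Algebra.Order.Archimedean.Real.Basic
import Mathlib.Data.Rat.Star
import Mathlib.Tactic.Algebra.Basic
import Pool.Agent.Lib.helper92.ZF.Tools

/-! Sums, rationals and reals inside a transitive model. -/

namespace Pool.Agent.ZF92

open ZFSet Function
open scoped Classical

universe u v w

variable {M : Set ZFSet.{0}} [hM : Fact (ZFC M)]
variable {X : Type u} {Y : Type v} {Z : Type w} [Srt M X] [Srt M Y] [Srt M Z]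

/-- The code as an element of the home sort. -/
def hm (M : Set ZFSet.{0}) {X : Type u} [Srt M X] (x : X) : M := ⟨cd M x, cd_mem x⟩

@[fun_prop]
theorem DfF.hm {f : X → Y} (hf : DfF M f) : DfF M (fun x => hm M (f x)) :=
  (DfF.of_cd_eq (c := (ZF92.hm M : Y → M)) fun _ => rfl).comp hf

omit hM in
theorem hm_inj {x y : X} : hm M x = hm M y ↔ x = y := by
  rw [hm, hm, Subtype.mk.injEq, cd_inj]

def sumCd (M : Set ZFSet.{0}) {X : Type u} {Y : Type v} [Srt M X] [Srt M Y] : X ⊕ Y → ℕ × M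
  | .inl x => (0, hm M x)
  | .inr y => (1, hm M y)

instance instSrtSum (X : Type u) (Y : Type v) [Srt M X] [Srt M Y] : Srt M (X ⊕ Y) :=
  Srt.ofInj (sumCd M) (by rintro (a | a) (b | b) h <;> simp_all [sumCd, hm_inj])
    (DfF.congr (P := fun p : ℕ × M => (∃ x : X, (0, hm M x) = p) ∨ ∃ y : Y, (1, hm M y) = p)
      (by fun_prop) fun p => by simp [sumCd])

@[fun_prop]
theorem DfF.inl {f : X → Y} (hf : DfF M f) : DfF M (fun x => (Sum.inl (f x) : Y ⊕ Z)) :=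
  DfF.of_comp_cd_eq (c := sumCd M) (fun _ => rfl) (by simp only [sumCd]; fun_prop)

@[fun_prop]
theorem DfF.inr {f : X → Z} (hf : DfF M f) : DfF M (fun x => (Sum.inr (f x) : Y ⊕ Z)) :=
  DfF.of_comp_cd_eq (c := sumCd M) (fun _ => rfl) (by simp only [sumCd]; fun_prop)

instance [Sm M X] [Sm M Y] : Sm M (X ⊕ Y) :=
  sm_of_subset (union_mem (un_mem (X := ℕ × X)) (un_mem (X := ℕ × Y))) (by
    rintro (x | y)
    · exact mem_union.2 (Or.inl (mem_un.2 ⟨(0, x), rfl⟩))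
    · exact mem_union.2 (Or.inr (mem_un.2 ⟨(1, y), rfl⟩)))

def optCd {X : Type u} : Option X → X ⊕ ℕ
  | .some x => .inl x
  | .none => .inr 0

instance instSrtOption (X : Type u) [Srt M X] : Srt M (Option X) :=
  Srt.ofInj optCd (by rintro (a | a) (b | b) h <;> simp_all [optCd])
    (DfF.congr (P := fun p : X ⊕ ℕ => (Sum.inr 0 = p) ∨ ∃ x : X, Sum.inl x = p)
      (by fun_prop) fun p => by simp [optCd, Option.exists])

@[fun_prop]
theorem DfF.some {f : X → Y} (hf : DfF M f) : DfF M (fun x => some (f x)) :=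
  DfF.of_comp_cd_eq (c := optCd) (fun _ => rfl) (by simp only [optCd]; fun_prop)

instance [Sm M X] : Sm M (Option X) :=
  sm_of_subset (un_mem (X := X ⊕ ℕ)) fun _ => mem_un.2 ⟨_, rfl⟩

def ratCd (q : ℚ) : (ℕ × ℕ) × ℕ := ((q.num.toNat, (-q.num).toNat), q.den)

theorem rat_eq (q : ℚ) : q = ((q.num.toNat : ℚ) - ((-q.num).toNat : ℚ)) / q.den := by
  have h : ((q.num.toNat : ℤ) - ((-q.num).toNat : ℤ)) = q.num := Int.toNat_sub_toNat_neg q.num
  have h' : ((q.num.toNat : ℚ) - ((-q.num).toNat : ℚ)) = q.num := by exact_mod_cast h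
  rw [h', Rat.num_div_den]

instance instSrtRat : Srt M ℚ := by
  refine Srt.ofInj ratCd (fun p q h => ?_) ?_
  · simp only [ratCd, Prod.mk.injEq] at h
    rw [rat_eq p, rat_eq q, h.1.1, h.1.2, h.2]
  · refine DfF.congr (P := fun p : (ℕ × ℕ) × ℕ => (p.1.1 = 0 ∨ p.1.2 = 0) ∧ 0 < p.2 ∧
      All fun d => All fun k => All fun l => Imp (p.1.1 + p.1.2 = d * k) (Imp (p.2 = d * l) (d = 1)))
      (by fun_prop) ?_
    rintro ⟨⟨a, b⟩, c⟩
    constructor
    · rintro ⟨q, hq⟩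
      simp only [ratCd, Prod.mk.injEq] at hq
      obtain ⟨⟨rfl, rfl⟩, rfl⟩ := hq
      refine ⟨by simp only; omega, q.den_pos, fun d k l h1 h2 => ?_⟩
      have h3 : q.num.natAbs = d * k := by simp only at h1; omega
      exact Nat.eq_one_of_dvd_coprimes q.reduced ⟨k, h3⟩ ⟨l, h2⟩
    · rintro ⟨h1, h2, h3⟩
      have h4 : ((a : ℤ) - b).natAbs.Coprime c := by
        have : ((a : ℤ) - b).natAbs = a + b := by simp only at h1; omega
        rw [this]
        obtain ⟨k, hk⟩ := Nat.gcd_dvd_left (a + b) c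
        obtain ⟨l, hl⟩ := Nat.gcd_dvd_right (a + b) c
        exact h3 _ k l hk hl
      refine ⟨⟨(a : ℤ) - b, c, h2.ne', h4⟩, ?_⟩
      simp only [ratCd, Prod.mk.injEq, and_true]
      simp only at h1
      omega

theorem cd_rat (q : ℚ) : cd M q = rat q := rfl

instance : Sm M ℚ := sm_of_subset (un_mem (X := (ℕ × ℕ) × ℕ)) fun _ => mem_un.2 ⟨_, rfl⟩

theorem df_ratCd : DfF M ratCd := DfF.of_cd_eq fun _ => rfl

def qa (q : ℚ) : ℕ := q.num.toNat
def qb (q : ℚ) : ℕ := (-q.num).toNat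
def qc (q : ℚ) : ℕ := q.den

@[fun_prop] theorem DfF.qa {f : X → ℚ} (hf : DfF M f) : DfF M (fun x => qa (f x)) :=
  (df_ratCd.comp hf).fst.fst
@[fun_prop] theorem DfF.qb {f : X → ℚ} (hf : DfF M f) : DfF M (fun x => qb (f x)) :=
  (df_ratCd.comp hf).fst.snd
@[fun_prop] theorem DfF.qc {f : X → ℚ} (hf : DfF M f) : DfF M (fun x => qc (f x)) :=
  (df_ratCd.comp hf).snd

theorem ratCd_spec (q : ℚ) : ∃ a b c : ℕ, qa q = a ∧ qb q = b ∧ qc q = c ∧ (0 : ℚ) < c ∧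
    q = ((a : ℚ) - b) / c :=
  ⟨_, _, _, rfl, rfl, rfl, by exact_mod_cast q.den_pos, rat_eq q⟩

@[fun_prop]
theorem DfF.rat_lt {f g : X → ℚ} (hf : DfF M f) (hg : DfF M g) : DfF M (fun x => f x < g x) := by
  refine DfF.congr (P := fun x => ZF92.qa (f x) * ZF92.qc (g x) +
    ZF92.qb (g x) * ZF92.qc (f x) < ZF92.qa (g x) * ZF92.qc (f x) +
    ZF92.qb (f x) * ZF92.qc (g x)) (by fun_prop) fun x => ?_
  obtain ⟨a, b, c, e1, e2, e3, hc, h⟩ := ratCd_spec (f x)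
  obtain ⟨a', b', c', e1', e2', e3', hc', h'⟩ := ratCd_spec (g x)
  rw [e1, e2, e3, e1', e2', e3', h, h', div_lt_div_iff₀ hc hc', ← Nat.cast_lt (α := ℚ)]
  push_cast
  constructor <;> intro h <;> linarith

@[fun_prop]
theorem DfF.rat_le {f g : X → ℚ} (hf : DfF M f) (hg : DfF M g) : DfF M (fun x => f x ≤ g x) :=
  (DfF.rat_lt hg hf).not.congr fun _ => not_lt.symm

@[fun_prop]
theorem DfF.rat_add {f g : X → ℚ} (hf : DfF M f) (hg : DfF M g) : DfF M (fun x => f x + g x) := by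
  refine DfF.of_rel (P := fun x y =>
    ZF92.qa (f x) * ZF92.qc (g x) * ZF92.qc y +
      ZF92.qa (g x) * ZF92.qc (f x) * ZF92.qc y +
      ZF92.qb y * ZF92.qc (f x) * ZF92.qc (g x) =
    ZF92.qb (f x) * ZF92.qc (g x) * ZF92.qc y +
      ZF92.qb (g x) * ZF92.qc (f x) * ZF92.qc y +
      ZF92.qa y * ZF92.qc (f x) * ZF92.qc (g x)) (by fun_prop) fun x y => ?_
  obtain ⟨a, b, c, e1, e2, e3, hc, h⟩ := ratCd_spec (f x)
  obtain ⟨a', b', c', e1', e2', e3', hc', h'⟩ := ratCd_spec (g x)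
  obtain ⟨a'', b'', c'', e1'', e2'', e3'', hc'', h''⟩ := ratCd_spec y
  rw [e1, e2, e3, e1', e2', e3', e1'', e2'', e3'', h, h', h'', div_add_div _ _ hc.ne' hc'.ne',
    div_eq_div_iff (mul_pos hc hc').ne' hc''.ne', ← Nat.cast_inj (R := ℚ)]
  push_cast
  constructor <;> intro h <;> linarith

@[fun_prop]
theorem DfF.rat_mul {f g : X → ℚ} (hf : DfF M f) (hg : DfF M g) : DfF M (fun x => f x * g x) := by
  refine DfF.of_rel (P := fun x y =>
    ZF92.qa (f x) * ZF92.qa (g x) * ZF92.qc y +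
      ZF92.qb (f x) * ZF92.qb (g x) * ZF92.qc y +
      ZF92.qb y * ZF92.qc (f x) * ZF92.qc (g x) =
    ZF92.qa (f x) * ZF92.qb (g x) * ZF92.qc y +
      ZF92.qb (f x) * ZF92.qa (g x) * ZF92.qc y +
      ZF92.qa y * ZF92.qc (f x) * ZF92.qc (g x)) (by fun_prop) fun x y => ?_
  obtain ⟨a, b, c, e1, e2, e3, hc, h⟩ := ratCd_spec (f x)
  obtain ⟨a', b', c', e1', e2', e3', hc', h'⟩ := ratCd_spec (g x)
  obtain ⟨a'', b'', c'', e1'', e2'', e3'', hc'', h''⟩ := ratCd_spec y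
  rw [e1, e2, e3, e1', e2', e3', e1'', e2'', e3'', h, h', h'', div_mul_div_comm,
    div_eq_div_iff (mul_pos hc hc').ne' hc''.ne', ← Nat.cast_inj (R := ℚ)]
  push_cast
  constructor <;> intro h <;> linarith

@[fun_prop]
theorem DfF.nat_cast {f : X → ℕ} (hf : DfF M f) : DfF M (fun x => (f x : ℚ)) := by
  refine DfF.of_rel (P := fun x y => f x * ZF92.qc y + ZF92.qb y = ZF92.qa y)
    (by fun_prop) fun x y => ?_
  obtain ⟨a, b, c, e1, e2, e3, hc, h⟩ := ratCd_spec y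
  rw [e1, e2, e3, h, eq_div_iff hc.ne', ← Nat.cast_inj (R := ℚ)]
  push_cast
  constructor <;> intro h <;> linarith

@[fun_prop]
theorem DfF.rat_neg {f : X → ℚ} (hf : DfF M f) : DfF M (fun x => - f x) :=
  DfF.of_rel (P := fun x y => f x + y = 0) (by fun_prop) fun _ _ => neg_eq_iff_add_eq_zero

@[fun_prop]
theorem DfF.rat_sub {f g : X → ℚ} (hf : DfF M f) (hg : DfF M g) : DfF M (fun x => f x - g x) := by
  simp only [sub_eq_add_neg]; fun_prop

@[fun_prop]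
theorem DfF.rat_div {f g : X → ℚ} (hf : DfF M f) (hg : DfF M g) : DfF M (fun x => f x / g x) :=
  DfF.of_rel (P := fun x y => (g x = 0 ∧ y = 0) ∨ (g x ≠ 0 ∧ f x = y * g x)) (by fun_prop)
    fun x y => by
      by_cases h : g x = 0
      · simp [h, eq_comm]
      · simp [h, div_eq_iff h]

@[fun_prop]
theorem DfF.rat_pow (c : ℚ) {f : X → ℕ} (hf : DfF M f) : DfF M (fun x => c ^ f x) :=
  (DfF.natRec (z := fun _ => (1 : ℚ)) (s := fun _ _ y => y * c) (by fun_prop) (by fun_prop)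
    hf).congr' fun x => by
    induction f x with
    | zero => exact pow_zero c
    | succ n ih => rw [pow_succ, ih]

theorem Ctb.rat (P : ℚ → Prop) : Ctb M P := by
  refine ⟨⟨fun q => Nat.pair (Nat.pair (qa q) (qb q)) (qc q), by fun_prop⟩,
    fun p q _ _ h => ?_⟩
  simp only [Fn.ap_mk, Nat.pair_eq_pair, qa, qb, qc] at h
  rw [rat_eq p, rat_eq q, h.1.1, h.1.2, h.2]

omit hM in
theorem mem_cut {r : ℝ} {z : ZFSet} : z ∈ cut r ↔ ∃ q : ℚ, (q : ℝ) < r ∧ z = rat q := by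
  rw [cut, mem_range]
  exact ⟨fun ⟨q, h⟩ => ⟨q.1, q.2, h.symm⟩, fun ⟨q, h, e⟩ => ⟨⟨q, h⟩, e.symm⟩⟩

/-- The reals of `M`. -/
structure Re (M : Set ZFSet.{0}) where
  val : ℝ
  mem : cut val ∈ M

def Re.ps (r : Re M) : PS M ℚ := ⟨{q | (q : ℝ) < r.val}, cut r.val, r.mem, fun _ => mem_cut⟩

theorem real_ext {a b : ℝ} (h : ∀ q : ℚ, (q : ℝ) < a ↔ (q : ℝ) < b) : a = b := by
  by_contra hne
  rcases lt_or_gt_of_ne hne with h' | h'
  · obtain ⟨q, h1, h2⟩ := exists_rat_btwn h'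
    exact absurd ((h q).2 h2) h1.not_gt
  · obtain ⟨q, h1, h2⟩ := exists_rat_btwn h'
    exact absurd ((h q).1 h2) h1.not_gt

omit hM in
theorem Re.ext {a b : Re M} (h : a.val = b.val) : a = b := by
  cases a; cases b; congr

noncomputable instance instSrtRe : Srt M (Re M) := by
  refine Srt.ofInj Re.ps (fun a b h => Re.ext (real_ext (PS.ext_iff.1 h))) ?_
  refine DfF.congr (P := fun A : PS M ℚ => (∃ q, q ∈ A) ∧ (∃ q, q ∉ A) ∧
    (All fun q => All fun p => Imp (q ∈ A) (Imp (p < q) (p ∈ A))) ∧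
    All fun q => Imp (q ∈ A) (∃ p, q < p ∧ p ∈ A)) (by fun_prop) fun A => ⟨?_, ?_⟩
  · rintro ⟨r, rfl⟩
    refine ⟨exists_rat_lt r.val, (exists_rat_gt r.val).imp fun q hq => hq.not_gt,
      fun q p hq hp => lt_trans (show (p : ℝ) < q by exact_mod_cast hp) hq, fun q hq => ?_⟩
    obtain ⟨p, h1, h2⟩ := exists_rat_btwn (show (q : ℝ) < r.val from hq)
    exact ⟨p, by exact_mod_cast h1, h2⟩
  · rintro ⟨⟨q0, h0⟩, ⟨q1, h1⟩, h2, h3⟩
    have hb : BddAbove ((Rat.cast : ℚ → ℝ) '' (A : Set ℚ)) := ⟨q1, by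
      rintro _ ⟨q, hq, rfl⟩
      by_contra hn
      exact h1 (h2 q q1 hq (by exact_mod_cast not_le.1 hn))⟩
    have e : ∀ q : ℚ, (q : ℝ) < sSup ((Rat.cast : ℚ → ℝ) '' (A : Set ℚ)) ↔ q ∈ A := fun q => by
      rw [lt_csSup_iff hb ⟨_, q0, h0, rfl⟩]
      constructor
      · rintro ⟨_, ⟨p, hp, rfl⟩, h⟩
        exact h2 p q hp (by exact_mod_cast h)
      · intro hq
        obtain ⟨p, h4, h5⟩ := h3 q hq
        exact ⟨_, ⟨p, h5, rfl⟩, by exact_mod_cast h4⟩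
    refine ⟨⟨sSup ((Rat.cast : ℚ → ℝ) '' (A : Set ℚ)), ?_⟩, PS.ext e⟩
    convert cd_mem (M := M) A using 1
    ext z
    rw [mem_cut, mem_cd_ps]
    exact exists_congr fun q => and_congr_left fun _ => e q

theorem cd_re (r : Re M) : cd M r = cut r.val := by
  ext z
  rw [mem_cut]
  exact mem_cd_ps (A := r.ps)

instance : Sm M (Re M) := sm_of_subset (un_mem (X := PS M ℚ)) fun _ => mem_un.2 ⟨_, rfl⟩

/-- Definable real valued maps. -/
@[fun_prop]
def DfR (M : Set ZFSet.{0}) [Fact (ZFC M)] {X : Type u} [Srt M X] (F : X → ℝ) : Prop :=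
  DfF M (fun p : X × ℚ => (p.2 : ℝ) < F p.1)

/-- The real belongs to `M`. -/
class MR (M : Set ZFSet.{0}) (c : ℝ) : Prop where
  out : cut c ∈ M

theorem DfR.congr {F G : X → ℝ} (h : DfR M F) (e : ∀ x, G x = F x) : DfR M G := by
  have : G = F := funext e
  rwa [this]

@[fun_prop]
theorem DfR.comp {F : Y → ℝ} {g : X → Y} (hF : DfR M F) (hg : DfF M g) :
    DfR M (fun x => F (g x)) :=
  DfF.comp (f := fun p : Y × ℚ => (p.2 : ℝ) < F p.1) (g := fun p : X × ℚ => (g p.1, p.2)) hF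
    (by fun_prop)

@[fun_prop]
theorem DfR.val {g : X → Re M} (hg : DfF M g) : DfR M (fun x => (g x).val) := by
  have h1 : DfF M (Re.ps : Re M → _) := DfF.of_cd_eq fun _ => rfl
  exact DfF.congr (P := fun p : X × ℚ => p.2 ∈ (g p.1).ps) (by fun_prop) fun _ => Iff.rfl

@[fun_prop]
theorem DfR.const (c : ℝ) [h : MR M c] : DfR M (fun _ : X => c) :=
  DfR.val (g := fun _ => ⟨c, h.out⟩) (DfF.const _)

@[fun_prop]
theorem DfR.ratCast {g : X → ℚ} (hg : DfF M g) : DfR M (fun x => (g x : ℝ)) :=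
  DfF.congr (P := fun p : X × ℚ => p.2 < g p.1) (by fun_prop) fun _ => Rat.cast_lt

theorem DfR.exists_re {F : X → ℝ} (h : DfR M F) :
    ∃ g : X → Re M, DfF M g ∧ ∀ x, (g x).val = F x := by
  have h0 : DfF M (fun p : X × ℚ => (p.2 : ℝ) < F p.1) := h
  have h1 : ∀ x, cut (F x) ∈ M := fun x => by
    obtain ⟨a, ha, e⟩ := isM_of (M := M) (P := fun q : ℚ => (q : ℝ) < F x)
      (h0.comp (g := fun q => (x, q)) (by fun_prop))
    convert ha using 1
    ext z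
    rw [mem_cut, e]; rfl
  have h2 : DfF M (fun p : Re M × ℚ => (p.2 : ℝ) < p.1.val) := DfR.val DfF.id
  refine ⟨fun x => ⟨F x, h1 x⟩, DfF.of_rel
    (P := fun x r => All fun q : ℚ => ((q : ℝ) < F x ↔ (q : ℝ) < r.val)) ?_ fun x r =>
      ⟨fun e q => e ▸ Iff.rfl, fun e => Re.ext (real_ext e)⟩, fun _ => rfl⟩
  exact DfF.all ((h0.comp (g := fun p : (X × Re M) × ℚ => (p.1.1, p.2)) (by fun_prop)).iff
    (h2.comp (g := fun p : (X × Re M) × ℚ => (p.1.2, p.2)) (by fun_prop)))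

instance (r : Re M) : MR M r.val := ⟨r.mem⟩

instance (q : ℚ) : MR M (q : ℝ) := by
  obtain ⟨g, -, hg⟩ := (DfR.ratCast (M := M) (g := fun q : ℚ => q) DfF.id).exists_re
  exact ⟨hg q ▸ (g q).mem⟩

instance : MR M 0 := by simpa using (inferInstance : MR M ((0 : ℚ) : ℝ))
instance : MR M 1 := by simpa using (inferInstance : MR M ((1 : ℚ) : ℝ))

theorem DfR.lt_left {F : X → ℝ} {q : X → ℚ} (hF : DfR M F) (hq : DfF M q) :
    DfF M (fun x => (q x : ℝ) < F x) :=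
  DfF.comp (f := fun p : X × ℚ => (p.2 : ℝ) < F p.1) (g := fun x => (x, q x)) hF (by fun_prop)

@[fun_prop]
theorem DfF.real_lt {F G : X → ℝ} (hF : DfR M F) (hG : DfR M G) : DfF M (fun x => F x < G x) := by
  refine (DfF.ex (P := fun x (q : ℚ) => ¬ (q : ℝ) < F x ∧ (q : ℝ) < G x)
    (DfF.and (DfF.not hF) hG)).congr fun x => ⟨fun h => ?_, fun ⟨q, h1, h2⟩ => (not_lt.1 h1).trans_lt h2⟩
  obtain ⟨q, h1, h2⟩ := exists_rat_btwn h
  exact ⟨q, h1.not_gt, h2⟩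

@[fun_prop]
theorem DfF.real_le {F G : X → ℝ} (hF : DfR M F) (hG : DfR M G) : DfF M (fun x => F x ≤ G x) :=
  (DfF.real_lt hG hF).not.congr fun _ => not_lt.symm

@[fun_prop]
theorem DfF.real_eq {F G : X → ℝ} (hF : DfR M F) (hG : DfR M G) : DfF M (fun x => F x = G x) :=
  ((DfF.real_le hF hG).and (DfF.real_le hG hF)).congr fun _ => le_antisymm_iff

@[fun_prop]
theorem DfF.real_ne {F G : X → ℝ} (hF : DfR M F) (hG : DfR M G) : DfF M (fun x => F x ≠ G x) :=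
  (DfF.real_eq hF hG).not

@[fun_prop]
theorem DfR.neg {F : X → ℝ} (hF : DfR M F) : DfR M (fun x => - F x) :=
  DfF.congr (P := fun p : X × ℚ => F p.1 < ((-p.2 : ℚ) : ℝ)) (by fun_prop) fun p => by
    push_cast; exact lt_neg

@[fun_prop]
theorem DfR.add {F G : X → ℝ} (hF : DfR M F) (hG : DfR M G) : DfR M (fun x => F x + G x) := by
  refine DfF.congr (P := fun p : X × ℚ => ∃ a : ℚ, (a : ℝ) < F p.1 ∧ ((p.2 - a : ℚ) : ℝ) < G p.1)
    (by fun_prop) fun p => ⟨fun h => ?_, fun ⟨a, h1, h2⟩ => by push_cast at h2; linarith⟩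
  obtain ⟨a, h1, h2⟩ := exists_rat_btwn (show (p.2 : ℝ) - G p.1 < F p.1 by linarith)
  exact ⟨a, h2, by push_cast; linarith⟩

@[fun_prop]
theorem DfR.sub {F G : X → ℝ} (hF : DfR M F) (hG : DfR M G) : DfR M (fun x => F x - G x) := by
  simp only [sub_eq_add_neg]; fun_prop

@[fun_prop]
theorem DfR.max {F G : X → ℝ} (hF : DfR M F) (hG : DfR M G) : DfR M (fun x => max (F x) (G x)) :=
  (DfF.or hF hG).congr fun _ => lt_max_iff

@[fun_prop]
theorem DfR.min {F G : X → ℝ} (hF : DfR M F) (hG : DfR M G) : DfR M (fun x => min (F x) (G x)) :=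
  (DfF.and hF hG).congr fun _ => lt_min_iff

@[fun_prop]
theorem DfR.abs {F : X → ℝ} (hF : DfR M F) : DfR M (fun x => |F x|) := hF.max hF.neg

@[fun_prop]
theorem DfR.ite {P : X → Prop} {d : ∀ x, Decidable (P x)} {F G : X → ℝ} (hP : DfF M P)
    (hF : DfR M F) (hG : DfR M G) : DfR M (fun x => @ite _ (P x) (d x) (F x) (G x)) :=
  DfF.congr (P := fun p : X × ℚ => (P p.1 ∧ (p.2 : ℝ) < F p.1) ∨ (¬ P p.1 ∧ (p.2 : ℝ) < G p.1))
    (by fun_prop) fun p => by by_cases h : P p.1 <;> simp [h]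

@[fun_prop]
theorem DfR.rat_mul {q : X → ℚ} {F : X → ℝ} (hq : DfF M q) (hF : DfR M F) :
    DfR M (fun x => (q x : ℝ) * F x) := by
  refine DfF.congr (P := fun p : X × ℚ => (q p.1 = 0 ∧ p.2 < 0) ∨
    (0 < q p.1 ∧ ((p.2 / q p.1 : ℚ) : ℝ) < F p.1) ∨ (q p.1 < 0 ∧ F p.1 < ((p.2 / q p.1 : ℚ) : ℝ)))
    (by fun_prop) fun p => ?_
  rcases lt_trichotomy (q p.1) 0 with h | h | h
  · have h' : (q p.1 : ℝ) < 0 := by exact_mod_cast h
    simp [h, h.ne, h.not_gt, lt_div_iff_of_neg h', mul_comm]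
  · simp [h]
  · have h' : (0 : ℝ) < q p.1 := by exact_mod_cast h
    simp [h, h.ne', h.not_gt, div_lt_iff₀ h', mul_comm]

theorem DfR.iSup [Nonempty Y] {F : X → Y → ℝ} (hF : DfR M (fun p : X × Y => F p.1 p.2))
    (hb : ∀ x, BddAbove (Set.range (F x))) : DfR M (fun x => ⨆ y, F x y) :=
  DfF.congr (P := fun p : X × ℚ => ∃ y, (p.2 : ℝ) < F p.1 y) (by fun_prop) fun p =>
    lt_ciSup_iff (hb p.1)

end Pool.Agent.ZF92
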