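import Mathlib.Tactic.SuppressCompilation
import Mathlib.Analysis.Normed.Order.Lattice
import Mathlib.Topology.Instances.Real.Lemmas
import Pool.Agent.Lib.helper92.ZF.Reals
import Mathlib.Analysis.SpecificLimits.Basic
import Mathlib.Analysis.Normed.Group.FunctionSeries
import Mathlib.Algebra.Order.Star.Real
import Mathlib.Order.CompletePartialOrder

-- ======== part 0: formerly Pool.Agent.Lib.helper92.ZF.Top
section MrgPart0

/-! Topological spaces that belong to a transitive model. -/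

namespace Pool.Agent.ZF92

open Function Set
open scoped Classical

set_option linter.unusedSectionVars false

universe u v w

variable {M : Set ZFSet.{0}} [hM : Fact (ZFC M)]

/-- The topology has a base that belongs to `M`. -/
class DTop (M : Set ZFSet.{0}) [Fact (ZFC M)] (X : Type u) [Srt M X] [TopologicalSpace X] :
    Prop where
  out : ∃ τ : PS M (PS M X), ∀ s : Set X, IsOpen s ↔ ∀ x ∈ s, ∃ U ∈ τ, x ∈ U ∧ ∀ y ∈ U, y ∈ s

variable {X : Type u} {Y : Type v} {Z : Type w} [Srt M X] [Srt M Y] [Srt M Z]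
variable [Sm M X] [TopologicalSpace X] [DTop M X]

@[fun_prop]
theorem DfF.isOpen {P : Z → X → Prop} (h : DfF M (fun p : Z × X => P p.1 p.2)) :
    DfF M (fun z => IsOpen (Set.ofPred fun x => P z x)) := by
  obtain ⟨τ, hτ⟩ := DTop.out (M := M) (X := X)
  exact DfF.congr (P := fun z => ∀ x, P z x → ∃ U ∈ τ, x ∈ U ∧ ∀ y ∈ U, P z y)
    (by simp only [all_iff, imp_iff]; fun_prop) fun z => hτ _

@[fun_prop]
theorem DfF.isOpen_ps {A : Z → PS M X} (h : DfF M A) :
    DfF M (fun z => IsOpen (A z : Set X)) :=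
  DfF.isOpen (P := fun z x => x ∈ A z) (by fun_prop)

theorem exists_ps_nhds {s : Set X} (hs : IsOpen s) {x : X} (hx : x ∈ s) :
    ∃ U : PS M X, IsOpen (U : Set X) ∧ x ∈ U ∧ ∀ y ∈ U, y ∈ s := by
  obtain ⟨τ, hτ⟩ := DTop.out (M := M) (X := X)
  obtain ⟨U, hU, h⟩ := (hτ s).1 hs x hx
  exact ⟨U, (hτ _).2 fun y hy => ⟨U, hU, hy, fun _ h => h⟩, h⟩

@[fun_prop]
theorem DfF.mem_closure {P : Z → X → Prop} {g : Z → X} (h : DfF M (fun p : Z × X => P p.1 p.2))
    (hg : DfF M g) : DfF M (fun z => g z ∈ closure (Set.ofPred fun x => P z x)) := by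
  refine DfF.congr (P := fun z => ∀ U : PS M X, IsOpen (U : Set X) → g z ∈ U → ∃ y, y ∈ U ∧ P z y)
    (by simp only [all_iff, imp_iff]; fun_prop) fun z => ?_
  rw [mem_closure_iff]
  refine ⟨fun h U hU hz => h U hU hz, fun h o ho hz => ?_⟩
  obtain ⟨U, hU, h1, h2⟩ := exists_ps_nhds (M := M) ho hz
  obtain ⟨y, h3, h4⟩ := h U hU h1
  exact ⟨y, h2 y h3, h4⟩

/-- Compact in the sense of `M`. -/
def MCpt (M : Set ZFSet.{0}) [Fact (ZFC M)] (X : Type u) [Srt M X] [Sm M X] [TopologicalSpace X] :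
    Prop :=
  ∀ C : PS M (PS M X), (∀ U ∈ C, IsOpen (U : Set X)) → (∀ x, ∃ U ∈ C, x ∈ U) →
    ∃ F : Finset (PS M X), (∀ U ∈ F, U ∈ C) ∧ ∀ x, ∃ U ∈ F, x ∈ U

theorem MCpt.subcover (hX : MCpt M X) {F : X → Prop} (dF : DfF M F) (hF : IsClosed {x | F x})
    {U : Z → X → Prop} (dU : DfF M (fun p : Z × X => U p.1 p.2)) (hU : ∀ z, IsOpen {x | U z x})
    (hc : ∀ x, F x → ∃ z, U z x) : ∃ s : Finset Z, ∀ x, F x → ∃ z ∈ s, U z x := by
  have e0 : ∀ x, x ∈ PS.of M (fun x => ¬ F x) ↔ ¬ F x := fun x => PS.mem_of (by fun_prop)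
  have e1 : ∀ z x, x ∈ PS.of M (U z) ↔ U z x := fun z x => PS.mem_of (by fun_prop)
  have e2 : ∀ V, V ∈ PS.of M (fun V : PS M X => V = PS.of M (fun x => ¬ F x) ∨
      ∃ z, V = PS.of M fun x => U z x) ↔ (V = PS.of M (fun x => ¬ F x) ∨
      ∃ z, V = PS.of M fun x => U z x) := fun V => PS.mem_of (by fun_prop)
  obtain ⟨s, h1, h2⟩ := hX _ (fun V hV => by
      rcases (e2 V).1 hV with rfl | ⟨z, rfl⟩
      · convert hF.isOpen_compl using 1
        ext x; exact e0 x
      · convert hU z using 1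
        ext x; exact e1 z x) (fun x => by
      by_cases hx : F x
      · obtain ⟨z, hz⟩ := hc x hx
        exact ⟨_, (e2 _).2 (Or.inr ⟨z, rfl⟩), (e1 z x).2 hz⟩
      · exact ⟨_, (e2 _).2 (Or.inl rfl), (e0 x).2 hx⟩)
  have h3 : ∀ V : {V // V ∈ s ∧ V ≠ PS.of M (fun x => ¬ F x)}, ∃ z, V.1 = PS.of M (U z) :=
    fun V => ((e2 V.1).1 (h1 _ V.2.1)).resolve_left V.2.2
  choose g hg using h3
  have : Finite {V // V ∈ s ∧ V ≠ PS.of M (fun x => ¬ F x)} :=
    (s.finite_toSet.subset fun V hV => hV.1).to_subtype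
  refine ⟨(finite_range g).toFinset, fun x hx => ?_⟩
  obtain ⟨V, hV, hxV⟩ := h2 x
  have h4 : V ≠ PS.of M (fun x => ¬ F x) := fun e => (e0 x).1 (e ▸ hxV) hx
  exact ⟨g ⟨V, hV, h4⟩, by simp, (e1 _ x).1 (hg ⟨V, hV, h4⟩ ▸ hxV)⟩

theorem MCpt.exists_cluster (hX : MCpt M X) {u : ℕ → X} (du : DfF M u) :
    ∃ z, ∀ N, z ∈ closure {x | ∃ n, N ≤ n ∧ u n = x} := by
  by_contra hn
  push Not at hn
  obtain ⟨s, hs⟩ := hX.subcover (F := fun _ => True) (by fun_prop) isClosed_univ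
    (U := fun (N : ℕ) x => x ∉ closure {x | ∃ n, N ≤ n ∧ u n = x}) (by fun_prop)
    (fun N => isClosed_closure.isOpen_compl) fun x _ => hn x
  obtain ⟨N, hN, h⟩ := hs (u (s.sup id)) trivial
  exact h (subset_closure ⟨_, Finset.le_sup (f := id) hN, rfl⟩)

theorem continuous_iff_rat {α : Type*} [TopologicalSpace α] {φ : α → ℝ} :
    Continuous φ ↔ ∀ a b : ℚ, IsOpen {x | (a : ℝ) < φ x ∧ φ x < (b : ℝ)} := by
  refine ⟨fun h a b => isOpen_Ioo.preimage h, fun h => ?_⟩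
  refine Real.isTopologicalBasis_Ioo_rat.continuous_iff.2 fun s hs => ?_
  simp only [mem_iUnion, mem_singleton_iff] at hs
  obtain ⟨a, b, -, rfl⟩ := hs
  exact h a b

/-- Continuous real functions that belong to `M`. -/
structure Cp (M : Set ZFSet.{0}) [Fact (ZFC M)] (X : Type u) [Srt M X] [Sm M X]
    [TopologicalSpace X] where
  F : Fn M X (Re M)
  cont : Continuous fun x => (F.ap x).val

/-- Evaluation. -/
noncomputable def Cp.ev (f : Cp M X) (x : X) : ℝ := (f.F.ap x).val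

theorem Cp.continuous (f : Cp M X) : Continuous f.ev := f.cont

theorem Cp.ext {f g : Cp M X} (h : ∀ x, f.ev x = g.ev x) : f = g := by
  obtain ⟨F, _⟩ := f
  obtain ⟨G, _⟩ := g
  obtain rfl : F = G := Fn.ext fun x => Re.ext (h x)
  rfl

noncomputable instance instSrtCp (X : Type u) [Srt M X] [Sm M X] [TopologicalSpace X] [DTop M X] :
    Srt M (Cp M X) :=
  Srt.ofInj Cp.F (fun f g h => Cp.ext fun x => by rw [Cp.ev, h, Cp.ev])
    (DfF.congr (P := fun F : Fn M X (Re M) => All fun a : ℚ => All fun b : ℚ =>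
      IsOpen {x | (a : ℝ) < (F.ap x).val ∧ (F.ap x).val < (b : ℝ)}) (by fun_prop) fun F =>
      ⟨fun ⟨f, e⟩ => e ▸ continuous_iff_rat.1 f.cont, fun h => ⟨⟨F, continuous_iff_rat.2 h⟩, rfl⟩⟩)

instance : Sm M (Cp M X) := sm_of_subset (un_mem (X := Fn M X (Re M))) fun _ => mem_un.2 ⟨_, rfl⟩

@[fun_prop]
theorem DfR.ev {f : Z → Cp M X} {g : Z → X} (hf : DfF M f) (hg : DfF M g) :
    DfR M (fun z => (f z).ev (g z)) := by
  have h1 : DfF M (Cp.F : Cp M X → _) := DfF.of_cd_eq fun _ => rfl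
  exact DfR.val (DfF.ap (h1.comp hf) hg)

instance (f : Cp M X) (x : X) : MR M (f.ev x) := ⟨(f.F.ap x).mem⟩

theorem mem_cd_cp {f : Cp M X} {z : ZFSet} :
    z ∈ cd M f ↔ ∃ x, z = ZFSet.pair (cd M x) (cut (f.ev x)) := by
  refine (mem_cd_fn (F := f.F)).trans ?_
  simp only [cd_re, Cp.ev]

theorem exists_cp_lam {φ : Z → X → ℝ} (h : DfR M (fun p : Z × X => φ p.1 p.2))
    (hc : ∀ z, Continuous (φ z)) : ∃ F : Z → Cp M X, DfF M F ∧ ∀ z x, (F z).ev x = φ z x := by
  obtain ⟨g, dg, hg⟩ := h.exists_re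
  obtain ⟨F, dF, hF⟩ := exists_lam (M := M) (f := fun z x => g (z, x)) dg
  have e : ∀ z x, ((F z).ap x).val = φ z x := fun z x => by rw [hF, hg]
  exact ⟨fun z => ⟨F z, by simpa only [e] using hc z⟩,
    DfF.of_comp_cd_eq (c := Cp.F) (fun _ => rfl) dF, e⟩

theorem exists_cp {φ : X → ℝ} (h : DfR M φ) (hc : Continuous φ) :
    ∃ f : Cp M X, ∀ x, f.ev x = φ x := by
  obtain ⟨F, -, hF⟩ := exists_cp_lam (M := M) (Z := ℕ) (φ := fun _ => φ) (by fun_prop) fun _ => hc
  exact ⟨F 0, hF 0⟩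

instance : Nonempty (Cp M X) :=
  let ⟨f, _⟩ := exists_cp (M := M) (X := X) (φ := fun _ => 0) (by fun_prop) continuous_const; ⟨f⟩

noncomputable instance : TopologicalSpace (Cp M X) := TopologicalSpace.induced Cp.ev inferInstance

theorem Cp.continuous_ev (x : X) : Continuous fun f : Cp M X => f.ev x :=
  (continuous_apply x).comp (continuous_induced_dom (f := (Cp.ev : Cp M X → X → ℝ)))

/-- Completely regular in the sense of `M`. -/
def MTych (M : Set ZFSet.{0}) [Fact (ZFC M)] (X : Type u) [Srt M X] [Sm M X] [TopologicalSpace X] :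
    Prop :=
  ∀ U : Set X, IsOpen U → ∀ x ∈ U, ∃ f : Cp M X, f.ev x = 0 ∧ ∀ y, y ∉ U → f.ev y = 1

theorem MTych.exists_eqOn [T1Space X] (hX : MTych M X) {E : Set X} (hE : E.Finite)
    (g : X → Re M) : ∃ f : Cp M X, ∀ x ∈ E, f.ev x = (g x).val := by
  induction E, hE using Set.Finite.induction_on with
  | empty => exact ⟨Classical.arbitrary _, by simp⟩
  | @insert a E ha hE ih =>
    obtain ⟨f, hf⟩ := ih
    obtain ⟨u, hu0, hu1⟩ := hX Eᶜ hE.isClosed.isOpen_compl a ha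
    obtain ⟨n, hn⟩ := exists_rat_gt |(g a).val - f.ev a|
    obtain ⟨f', hf'⟩ := exists_cp (M := M) (φ := fun x => f.ev x +
      max (min ((g a).val - f.ev a) ((n : ℝ) * (1 - u.ev x))) (-((n : ℝ) * (1 - u.ev x))))
      (DfR.add (by fun_prop) (DfR.max (DfR.min (DfR.sub (by fun_prop) (by fun_prop))
        (DfR.rat_mul (q := fun _ => n) (by fun_prop) (by fun_prop)))
        (DfR.neg (DfR.rat_mul (q := fun _ => n) (by fun_prop) (by fun_prop)))))
      (by have := f.continuous; have := u.continuous; fun_prop)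
    refine ⟨f', fun x hx => ?_⟩
    rcases hx with rfl | hx
    · rw [hf', hu0, sub_zero, mul_one, min_eq_left ((le_abs_self _).trans hn.le),
        max_eq_left (neg_le_of_abs_le hn.le)]
      ring
    · rw [hf', hu1 x (not_not.2 hx), hf x hx]
      simp

/-- Metrizable in the sense of `M`. -/
def MMetr (M : Set ZFSet.{0}) [Fact (ZFC M)] (X : Type u) [Srt M X] [TopologicalSpace X] : Prop :=
  ∃ d : X → X → ℝ, DfR M (fun p : X × X => d p.1 p.2) ∧ (∀ x y, d x y = 0 ↔ x = y) ∧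
    (∀ x y, d x y = d y x) ∧ (∀ x y z, d x z ≤ d x y + d y z) ∧
    ∀ V : PS M X, IsOpen (V : Set X) ↔ ∀ y ∈ V, ∃ ε : ℚ, 0 < ε ∧ ∀ z, d y z < ε → z ∈ V

end Pool.Agent.ZF92

end MrgPart0

-- ======== part 1: formerly Pool.Agent.Lib.helper92.ZF.Cube
section MrgPart1

/-! The Tychonoff cube of a transitive model. -/

namespace Pool.Agent.ZF92

open Function Set
open scoped Classical

set_option linter.unusedSectionVars false

universe u v w

variable {M : Set ZFSet.{0}} [hM : Fact (ZFC M)]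
variable {X : Type u} {J : Type v} {Z : Type w} [Srt M X] [Srt M J] [Srt M Z]

theorem DTop.of_nhds [Sm M X] [TopologicalSpace X] (h1 : DfF M fun U : PS M X => IsOpen (U : Set X))
    (h2 : ∀ s : Set X, IsOpen s → ∀ x ∈ s, ∃ P : X → Prop, DfF M P ∧ IsOpen {y | P y} ∧ P x ∧
      ∀ y, P y → y ∈ s) : DTop M X := by
  refine ⟨PS.of M fun U : PS M X => IsOpen (U : Set X), fun s => ⟨fun hs x hx => ?_, fun h => ?_⟩⟩
  · obtain ⟨P, dP, h3, h4, h5⟩ := h2 s hs x hx
    refine ⟨PS.of M P, (PS.mem_of h1).2 ?_, (PS.mem_of dP).2 h4, fun y hy => h5 y ((PS.mem_of dP).1 hy)⟩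
    convert h3 using 1
    ext y; exact PS.mem_of dP
  · refine isOpen_iff_forall_mem_open.2 fun x hx => ?_
    obtain ⟨U, hU, h3, h4⟩ := h x hx
    exact ⟨U, h4, (PS.mem_of h1).1 hU, h3⟩

theorem continuous_fold_max {α ι : Type*} [TopologicalSpace α] (s : Finset ι) {b : α → ℝ}
    {f : α → ι → ℝ} (hb : Continuous b) (hf : ∀ i, Continuous fun x => f x i) :
    Continuous fun x => s.fold max (b x) (f x) := by
  induction s using Finset.induction_on with
  | empty => simpa using hb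
  | insert a s ha ih => simp only [Finset.fold_insert ha]; exact (hf a).max ih

theorem continuous_fold_min {α ι : Type*} [TopologicalSpace α] (s : Finset ι) {b : α → ℝ}
    {f : α → ι → ℝ} (hb : Continuous b) (hf : ∀ i, Continuous fun x => f x i) :
    Continuous fun x => s.fold min (b x) (f x) := by
  induction s using Finset.induction_on with
  | empty => simpa using hb
  | insert a s ha ih => simp only [Finset.fold_insert ha]; exact (hf a).min ih

theorem isOpen_induced_pi {α ι : Type*} {e : α → ι → ℝ} {s : Set α} :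
    @IsOpen α (TopologicalSpace.induced e inferInstance) s ↔ ∀ x ∈ s, ∃ F : Finset ι, ∃ ε : ℚ, 0 < ε ∧
      ∀ y, (∀ i ∈ F, |e x i - e y i| < (ε : ℝ)) → y ∈ s := by
  let _ : TopologicalSpace α := TopologicalSpace.induced e inferInstance
  have hc : ∀ i, Continuous fun y => e y i := fun i =>
    (continuous_apply i).comp (continuous_induced_dom (f := e))
  constructor
  · intro hs x hx
    obtain ⟨V, hV, rfl⟩ := isOpen_induced_iff.1 hs
    obtain ⟨F, u, hu, hI⟩ := isOpen_pi_iff.1 hV (e x) hx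
    have h1 : ∀ i ∈ F, ∃ ε : ℚ, 0 < ε ∧ Metric.ball (e x i) ε ⊆ u i := fun i hi => by
      obtain ⟨ε, hε, h⟩ := Metric.isOpen_iff.1 (hu i hi).1 _ (hu i hi).2
      obtain ⟨q, h1, h2⟩ := exists_rat_btwn hε
      exact ⟨q, by exact_mod_cast h1, (Metric.ball_subset_ball h2.le).trans h⟩
    choose! ε h2 h3 using h1
    refine ⟨F, F.fold min 1 ε, (Finset.lt_fold_min _).2 ⟨one_pos, h2⟩, fun y hy =>
      hI fun i hi => h3 i hi ?_⟩
    rw [Metric.mem_ball', Real.dist_eq]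
    refine (hy i hi).trans_le ?_
    exact_mod_cast (Finset.fold_min_le _).2 (Or.inr ⟨i, hi, le_rfl⟩)
  · intro h
    refine isOpen_iff_forall_mem_open.2 fun x hx => ?_
    obtain ⟨F, ε, hε, h1⟩ := h x hx
    refine ⟨⋂ i ∈ F, {y | |e x i - e y i| < (ε : ℝ)}, fun y hy => h1 y (by simpa using hy),
      isOpen_biInter_finset fun i _ => isOpen_lt (by have := hc i; fun_prop) continuous_const, ?_⟩
    simp only [mem_iInter, mem_ofPred_eq, sub_self, abs_zero]
    exact fun _ _ => by exact_mod_cast hε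

theorem dTop_induced [Sm M X] [Sm M J] {e : X → J → ℝ} (de : DfR M fun p : X × J => e p.1 p.2) :
    @DTop M _ X _ (TopologicalSpace.induced e inferInstance) := by
  let _ : TopologicalSpace X := TopologicalSpace.induced e inferInstance
  refine DTop.of_nhds (DfF.congr (P := fun U : PS M X => ∀ x ∈ U, ∃ F : Finset J, ∃ ε : ℚ, 0 < ε ∧
    ∀ y, (∀ i ∈ F, |e x i - e y i| < (ε : ℝ)) → y ∈ U)
    (by simp only [all_iff, imp_iff]; fun_prop) fun U => isOpen_induced_pi) fun s hs x hx => ?_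
  obtain ⟨F, ε, hε, h1⟩ := isOpen_induced_pi.1 hs x hx
  have : ∀ i, MR M (e x i) := fun i => by
    obtain ⟨g, -, hg⟩ := de.exists_re
    exact ⟨hg (x, i) ▸ (g (x, i)).mem⟩
  refine ⟨fun y => ∀ i ∈ F, |e x i - e y i| < (ε : ℝ), by simp only [all_iff, imp_iff]; fun_prop,
    ?_, fun i _ => by simpa using hε, h1⟩
  have hc : ∀ i, Continuous fun y => e y i := fun i =>
    (continuous_apply i).comp (continuous_induced_dom (f := e))
  simp only [ofPred_forall]
  exact isOpen_biInter_finset fun i _ => isOpen_lt (by have := hc i; fun_prop) continuous_const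

theorem DfR.sum_range {F : X → ℕ → ℝ} (hF : DfR M fun p : X × ℕ => F p.1 p.2) :
    DfR M fun p : X × ℕ => ∑ j ∈ Finset.range p.2, F p.1 j := by
  obtain ⟨g, dg, hg⟩ := hF.exists_re
  obtain ⟨a, da, ha⟩ := DfR.exists_re (M := M) (F := fun p : Re M × Re M => p.1.val + p.2.val)
    (by fun_prop)
  refine (DfR.val (DfF.natRec (z := fun _ : X × ℕ => (⟨0, MR.out⟩ : Re M))
    (s := fun p j y => a (y, g (p.1, j))) (k := fun p => p.2) (by fun_prop) (by fun_prop)
    (by fun_prop))).congr fun p => ?_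
  induction p.2 with
  | zero => rfl
  | succ n ih => rw [Finset.sum_range_succ, ih, ha, hg]

theorem DfR.tsum {F : X → ℕ → ℝ} (hF : DfR M fun p : X × ℕ => F p.1 p.2) (h0 : ∀ x j, 0 ≤ F x j)
    (hs : ∀ x, Summable (F x)) : DfR M fun x => ∑' j, F x j := by
  have hb : ∀ x, BddAbove (range fun n => ∑ j ∈ Finset.range n, F x j) := fun x =>
    ⟨∑' j, F x j, by rintro _ ⟨n, rfl⟩; exact (hs x).sum_le_tsum _ fun j _ => h0 x j⟩
  refine (DfR.iSup hF.sum_range hb).congr fun x => ?_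
  exact tendsto_nhds_unique (hs x).hasSum.tendsto_sum_nat (tendsto_atTop_ciSup
    (fun m n h => Finset.sum_le_sum_of_subset_of_nonneg (Finset.range_mono h) fun j _ _ => h0 x j)
    (hb x))

/-- Compactness of the Cantor cube of the model. -/
theorem tukey [Sm M J] [Sm M Z] {C : Z → Fn M J Prop → Prop}
    (dC : DfF M fun p : Z × Fn M J Prop => C p.1 p.2)
    (h : ∀ s : Fn M J Prop, ∃ (F : Finset J) (z : Z), ∀ t : Fn M J Prop,
      (∀ i ∈ F, t.ap i = s.ap i) → C z t) : ∃ T : Finset Z, ∀ t, ∃ z ∈ T, C z t := by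
  by_contra hn
  obtain ⟨r, hr⟩ := exists_mwo (M := M) J
  have hd := hr.df
  let B : J → Fn M J Prop → Prop → Prop := fun x G y => ∀ F : Finset J, (∀ i ∈ F, r i x) →
    ∀ T : Finset Z, ∃ t : Fn M J Prop, (∀ i ∈ F, t.ap i = G.ap i) ∧ t.ap x = y ∧ ∀ z ∈ T, ¬ C z t
  obtain ⟨f, df, hf⟩ := hr.exists_rec (Y := Prop) (R := fun x G y => (∀ F : Finset J,
    (∀ i ∈ F, r i x) → ∀ T : Finset Z, ∃ t : Fn M J Prop, (∀ i ∈ F, t.ap i = G.ap i) ∧
      ∀ z ∈ T, ¬ C z t) → B x G y) (by simp only [B, all_iff, imp_iff]; fun_prop) fun x G => by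
    by_contra hc
    push Not at hc
    have h1 := (hc True).2
    have h2 := (hc False).2
    simp only [B, not_forall, not_exists, not_and] at h1 h2
    obtain ⟨F1, h3, T1, h1⟩ := h1
    obtain ⟨F2, h4, T2, h2⟩ := h2
    obtain ⟨t, h5, h6⟩ := (hc True).1 (F1 ∪ F2)
      (fun i hi => (Finset.mem_union.1 hi).elim (h3 i) (h4 i)) (T1 ∪ T2)
    by_cases ht : t.ap x
    · obtain ⟨z, hz, h7⟩ := h1 t (fun i hi => h5 i (Finset.mem_union_left _ hi)) (eq_true ht)
      exact h7 (h6 z (Finset.mem_union_left _ hz))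
    · obtain ⟨z, hz, h7⟩ := h2 t (fun i hi => h5 i (Finset.mem_union_right _ hi)) (eq_false ht)
      exact h7 (h6 z (Finset.mem_union_right _ hz))
  let s : Fn M J Prop := ⟨f, df⟩
  have hmax : ∀ F : Finset J, F.Nonempty → ∃ z ∈ F, ∀ w ∈ F, w = z ∨ r w z := by
    intro F hF
    induction hF using Finset.Nonempty.cons_induction with
    | singleton a => exact ⟨a, by simp, by simp⟩
    | cons a F _ _ ih =>
      obtain ⟨z, hz, h1⟩ := ih
      rcases hr.tri a z with h2 | h2 | h2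
      · exact ⟨z, by simp [hz], by simpa [h2] using h1⟩
      · exact ⟨z, by simp [hz], by simpa [h2] using h1⟩
      · refine ⟨a, by simp, fun w hw => ?_⟩
        rcases Finset.mem_cons.1 hw with rfl | hw
        · exact Or.inl rfl
        · exact Or.inr ((h1 w hw).elim (fun e => e ▸ h2) fun h3 => hr.trans _ _ _ h3 h2)
  have key : ∀ F : Finset J, (∀ i ∈ F, B i s (f i)) → ∀ T : Finset Z, ∃ t : Fn M J Prop,
      (∀ i ∈ F, t.ap i = f i) ∧ ∀ z ∈ T, ¬ C z t := by
    intro F hF T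
    rcases F.eq_empty_or_nonempty with rfl | hne
    · push Not at hn
      simpa using hn T
    · obtain ⟨z, hz, h1⟩ := hmax F hne
      obtain ⟨t, h2, h3, h4⟩ := hF z hz (F.erase z)
        (fun i hi => (h1 i (Finset.mem_of_mem_erase hi)).resolve_left (Finset.ne_of_mem_erase hi)) T
      refine ⟨t, fun i hi => ?_, h4⟩
      by_cases e : i = z
      · exact e ▸ h3
      · exact h2 i (Finset.mem_erase.2 ⟨e, hi⟩)
  have hall : ∀ x, B x s (f x) := by
    refine hr.induction (by simp only [B, all_iff, imp_iff]; fun_prop) fun x ih => ?_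
    obtain ⟨G, hG, h1⟩ := hf x
    intro F hF T
    obtain ⟨t, h2, h3⟩ := h1 (fun F hF T => by
      obtain ⟨t, h2, h3⟩ := key F (fun i hi => ih i (hF i hi)) T
      exact ⟨t, fun i hi => (h2 i hi).trans (hG i (hF i hi)).symm, h3⟩) F hF T
    exact ⟨t, fun i hi => (h2 i hi).trans (hG i (hF i hi)), h3⟩
  obtain ⟨F, z, hz⟩ := h s
  obtain ⟨t, h1, h2⟩ := key F (fun i _ => hall i) {z}
  exact h2 z (Finset.mem_singleton_self z) (hz t h1)

/-- Binary expansions. -/
noncomputable def bin {J : Type v} (y : J × ℕ → ℝ) (a : J) : ℝ :=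
  ∑' j, (((1 / 2 : ℚ) ^ (j + 1) : ℚ) : ℝ) * max 0 (min 1 (y (a, j)))

theorem bin_term {c : ℝ} (j : ℕ) : 0 ≤ (((1 / 2 : ℚ) ^ (j + 1) : ℚ) : ℝ) * max 0 (min 1 c) ∧
    (((1 / 2 : ℚ) ^ (j + 1) : ℚ) : ℝ) * max 0 (min 1 c) ≤ 1 / 2 / 2 ^ j := by
  refine ⟨by positivity, ?_⟩
  have h1 : max 0 (min 1 c) ≤ 1 := max_le zero_le_one (min_le_left _ _)
  have h2 : (((1 / 2 : ℚ) ^ (j + 1) : ℚ) : ℝ) = 1 / 2 / 2 ^ j := by
    push_cast; rw [pow_succ, one_div_pow]; ring
  rw [h2]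
  exact mul_le_of_le_one_right (by positivity) h1

theorem bin_summable {J : Type v} (y : J × ℕ → ℝ) (a : J) :
    Summable fun j => (((1 / 2 : ℚ) ^ (j + 1) : ℚ) : ℝ) * max 0 (min 1 (y (a, j))) :=
  Summable.of_nonneg_of_le (fun j => (bin_term j).1) (fun j => (bin_term j).2)
    (summable_geometric_two' 1)

theorem bin_mem {J : Type v} (y : J × ℕ → ℝ) (a : J) : 0 ≤ bin y a ∧ bin y a ≤ 1 :=
  ⟨tsum_nonneg fun j => (bin_term j).1, ((bin_summable y a).tsum_le_tsum (fun j => (bin_term j).2)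
    (summable_geometric_two' 1)).trans_eq (tsum_geometric_two' 1)⟩

theorem continuous_bin {J : Type v} : Continuous (bin : (J × ℕ → ℝ) → J → ℝ) :=
  continuous_pi fun a => continuous_tsum (fun j => by fun_prop) (summable_geometric_two' 1)
    fun j y => by rw [Real.norm_of_nonneg (bin_term j).1]; exact (bin_term j).2

theorem DfR.bin {y : X → J × ℕ → ℝ} (hy : DfR M fun p : X × J × ℕ => y p.1 p.2) :
    DfR M fun p : X × J => bin (y p.1) p.2 :=
  DfR.tsum (F := fun (p : X × J) j =>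
      (((1 / 2 : ℚ) ^ (j + 1) : ℚ) : ℝ) * Max.max 0 (Min.min 1 (y p.1 (p.2, j))))
    (DfR.rat_mul (by fun_prop) (by fun_prop)) (fun _ j => (bin_term j).1) fun p => bin_summable _ _

theorem exists_bits {y : J → ℝ} (hy : DfR M y) (h : ∀ a, 0 ≤ y a ∧ y a ≤ 1) :
    ∃ s : J × ℕ → Prop, DfF M s ∧ bin (fun c => if s c then 1 else 0) = y := by
  let S : J → ℕ → ℚ := fun a n => Nat.rec 0
    (fun j t => if ((t + (1 / 2) ^ (j + 1) : ℚ) : ℝ) ≤ y a then t + (1 / 2) ^ (j + 1) else t) n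
  have dS : DfF M fun p : J × ℕ => S p.1 p.2 :=
    DfF.natRec (z := fun _ : J × ℕ => (0 : ℚ)) (k := fun p => p.2) (by fun_prop) (by fun_prop)
      (by fun_prop)
  refine ⟨fun c => ((S c.1 c.2 + (1 / 2) ^ (c.2 + 1) : ℚ) : ℝ) ≤ y c.1, by fun_prop,
    funext fun a => ?_⟩
  have h1 : ∀ n : ℕ, ∑ j ∈ Finset.range n, (((1 / 2 : ℚ) ^ (j + 1) : ℚ) : ℝ) * max 0 (min 1
      (if ((S a j + (1 / 2) ^ (j + 1) : ℚ) : ℝ) ≤ y a then 1 else 0)) = (Rat.cast (S a n) : ℝ) ∧
      Rat.cast (S a n) ≤ y a ∧ y a ≤ Rat.cast (S a n) + (1 / 2 : ℝ) ^ n := by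
    intro n
    induction n with
    | zero => simpa [S] using h a
    | succ n ih =>
      have e : S a (n + 1) = if ((S a n + (1 / 2) ^ (n + 1) : ℚ) : ℝ) ≤ y a then
        S a n + (1 / 2) ^ (n + 1) else S a n := rfl
      rw [Finset.sum_range_succ, ih.1, e]
      obtain ⟨-, h2, h3⟩ := ih
      split_ifs with h4
      · refine ⟨by simp, h4, ?_⟩
        push_cast
        rw [pow_succ]; linarith
      · push_cast at h4
        exact ⟨by simp, h2, (not_le.1 h4).le⟩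
  unfold bin
  refine tendsto_nhds_unique (bin_summable (fun c : J × ℕ =>
    if ((S c.1 c.2 + (1 / 2) ^ (c.2 + 1) : ℚ) : ℝ) ≤ y c.1 then 1 else 0) a).hasSum.tendsto_sum_nat ?_
  simp only [fun n => (h1 n).1]
  have h2 : Filter.Tendsto (fun n : ℕ => y a - (1 / 2) ^ n) Filter.atTop (nhds (y a)) := by
    simpa using (tendsto_const_nhds (x := y a)).sub
      (tendsto_pow_atTop_nhds_zero_of_lt_one (r := (1 / 2 : ℝ)) (by norm_num) (by norm_num))
  exact tendsto_of_tendsto_of_tendsto_of_le_of_le h2 tendsto_const_nhds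
    (fun n => by linarith [(h1 n).2.2]) fun n => (h1 n).2.1

variable [Sm M J]

/-- The cube `[0,1]^J` of the model. -/
structure Cube (M : Set ZFSet.{0}) [Fact (ZFC M)] (J : Type v) [Srt M J] [Sm M J] where
  F : Fn M J (Re M)
  mem : ∀ a, 0 ≤ (F.ap a).val ∧ (F.ap a).val ≤ 1

noncomputable def Cube.ev (y : Cube M J) (a : J) : ℝ := (y.F.ap a).val

theorem Cube.ext {f g : Cube M J} (h : f.ev = g.ev) : f = g := by
  obtain ⟨F, _⟩ := f
  obtain ⟨G, _⟩ := g
  obtain rfl : F = G := Fn.ext fun x => Re.ext (congrFun h x)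
  rfl

noncomputable instance : Srt M (Cube M J) :=
  Srt.ofInj Cube.F (fun f g h => Cube.ext (by unfold Cube.ev; rw [h]))
    (DfF.congr (P := fun F : Fn M J (Re M) => All fun a => 0 ≤ (F.ap a).val ∧ (F.ap a).val ≤ 1)
      (by fun_prop) fun F => ⟨fun ⟨f, e⟩ => e ▸ f.mem, fun h => ⟨⟨F, h⟩, rfl⟩⟩)

instance : Sm M (Cube M J) := sm_of_subset (un_mem (X := Fn M J (Re M))) fun _ => mem_un.2 ⟨_, rfl⟩

@[fun_prop]
theorem DfR.cube_ev {f : Z → Cube M J} {g : Z → J} (hf : DfF M f) (hg : DfF M g) :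
    DfR M (fun z => (f z).ev (g z)) := by
  have h1 : DfF M (Cube.F : Cube M J → _) := DfF.of_cd_eq fun _ => rfl
  exact DfR.val (DfF.ap (h1.comp hf) hg)

theorem exists_cube_lam {φ : Z → J → ℝ} (h : DfR M (fun p : Z × J => φ p.1 p.2))
    (hc : ∀ z a, 0 ≤ φ z a ∧ φ z a ≤ 1) : ∃ F : Z → Cube M J, DfF M F ∧ ∀ z, (F z).ev = φ z := by
  obtain ⟨g, dg, hg⟩ := h.exists_re
  obtain ⟨F, dF, hF⟩ := exists_lam (M := M) (f := fun z x => g (z, x)) dg
  have e : ∀ z x, ((F z).ap x).val = φ z x := fun z x => by rw [hF, hg]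
  exact ⟨fun z => ⟨F z, by simpa only [e] using hc z⟩,
    DfF.of_comp_cd_eq (c := Cube.F) (fun _ => rfl) dF, fun z => funext (e z)⟩

noncomputable instance : TopologicalSpace (Cube M J) :=
  TopologicalSpace.induced Cube.ev inferInstance

instance : DTop M (Cube M J) := dTop_induced (by fun_prop)

instance : T2Space (Cube M J) :=
  Topology.IsEmbedding.t2Space (f := Cube.ev) ⟨⟨rfl⟩, fun _ _ => Cube.ext⟩

theorem Cube.mtych : MTych M (Cube M J) := by
  intro U hU x hx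
  obtain ⟨F, ε, hε, h⟩ := isOpen_induced_pi.1 hU x hx
  have hε' : (0 : ℝ) < ε := by exact_mod_cast hε
  have hc : ∀ i, Continuous fun y : Cube M J => y.ev i := fun i =>
    (continuous_apply i).comp (continuous_induced_dom (f := Cube.ev))
  obtain ⟨f, hf⟩ := exists_cp (M := M) (φ := fun y : Cube M J =>
    min 1 (((1 / ε : ℚ) : ℝ) * F.fold max 0 fun i => |x.ev i - y.ev i|))
    (DfR.min (by fun_prop) (DfR.rat_mul (by fun_prop) (DfF.congr (P := fun p : Cube M J × ℚ =>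
      (p.2 : ℝ) < 0 ∨ ∃ i, i ∈ F ∧ (p.2 : ℝ) < |x.ev i - p.1.ev i|) (by fun_prop)
      fun p => Finset.lt_fold_max _)))
    (continuous_const.min (continuous_const.mul (continuous_fold_max F continuous_const fun i => by
      have := hc i; fun_prop)))
  refine ⟨f, ?_, fun y hy => ?_⟩
  · rw [hf, le_antisymm ((Finset.fold_max_le _).2 ⟨le_rfl, fun i _ => by simp⟩)
      ((Finset.le_fold_max _).2 (Or.inl le_rfl))]
    simp
  · rw [hf, min_eq_left]
    obtain ⟨i, hi, h1⟩ : ∃ i ∈ F, (ε : ℝ) ≤ |x.ev i - y.ev i| := by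
      by_contra hn
      push Not at hn
      exact hy (h y hn)
    push_cast
    rw [one_div, inv_mul_eq_div, one_le_div hε']
    exact (Finset.le_fold_max _).2 (Or.inr ⟨i, hi, h1⟩)

theorem Cube.mcpt : MCpt M (Cube M J) := by
  obtain ⟨Ψ, dΨ, hΨ⟩ := exists_cube_lam (M := M) (J := J)
    (φ := fun s : Fn M (J × ℕ) Prop => bin fun c => if s.ap c then 1 else 0)
    (DfR.bin (y := fun (s : Fn M (J × ℕ) Prop) c => if s.ap c then 1 else 0) (by fun_prop))
    fun _ _ => bin_mem _ _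
  intro C h1 h2
  obtain ⟨T, hT⟩ := tukey (M := M) (C := fun (U : PS M (Cube M J)) (s : Fn M (J × ℕ) Prop) =>
    U ∈ C ∧ Ψ s ∈ U) (by fun_prop) fun s => by
    obtain ⟨U, hU, hs⟩ := h2 (Ψ s)
    obtain ⟨V, hV, e⟩ := isOpen_induced_iff.1 (h1 U hU)
    have e' : ∀ t, Ψ t ∈ U ↔ (fun c => if t.ap c then 1 else 0) ∈ bin ⁻¹' V := fun t => by
      rw [mem_preimage, ← hΨ, ← mem_preimage, e]; rfl
    obtain ⟨F, u, hu, hI⟩ := isOpen_pi_iff.1 (hV.preimage continuous_bin) _ ((e' s).1 hs)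
    exact ⟨F, U, fun t ht => ⟨hU, (e' t).2 (hI fun i hi => by
      simpa only [ht i hi] using (hu i hi).2)⟩⟩
  refine ⟨T.filter (· ∈ C), fun U hU => (Finset.mem_filter.1 hU).2, fun y => ?_⟩
  obtain ⟨s, ds, hs⟩ := exists_bits (M := M) (y := y.ev) (by fun_prop) y.mem
  obtain ⟨U, hU, h3, h4⟩ := hT ⟨s, ds⟩
  exact ⟨U, Finset.mem_filter.2 ⟨hU, h3⟩, Cube.ext ((hΨ ⟨s, ds⟩).trans hs) ▸ h4⟩

theorem Cube.not_mmetr (hJ : ¬ Ctb M fun _ : J => True) : ¬ MMetr M (Cube M J) := by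
  rintro ⟨d, dd, h1, h2, h3, h4⟩
  obtain ⟨E, dE, hE⟩ := exists_cube_lam (M := M) (J := J)
    (φ := fun (b : Option J) a => if b = some a then 1 else 0) (by fun_prop)
    fun b a => by split_ifs <;> simp
  have h0 : ∀ x y, 0 ≤ d x y := fun x y => by
    have := h3 x y x
    rw [(h1 x x).2 rfl, h2 y x] at this
    linarith
  obtain ⟨F, dF, hF⟩ := exists_choice (M := M) (R := fun (n : ℕ) (F : Finset J) =>
    ∀ a, a ∉ F → d (E none) (E (some a)) < ((1 / (n + 1) : ℚ) : ℝ))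
    (by simp only [all_iff, imp_iff]; fun_prop) fun n => by
    have e : ∀ y, y ∈ PS.of M (fun y => d (E none) y < ((1 / (n + 1) : ℚ) : ℝ)) ↔
      d (E none) y < ((1 / (n + 1) : ℚ) : ℝ) := fun y => PS.mem_of (by fun_prop)
    obtain ⟨F, ε, hε, h⟩ := (isOpen_induced_pi (e := Cube.ev)).1 ((h4 _).2 fun y hy => by
      obtain ⟨q, h5, h6⟩ := exists_rat_btwn (sub_pos.2 ((e y).1 hy))
      exact ⟨q, by exact_mod_cast h5, fun z hz => (e z).2 (by linarith [h3 (E none) y z])⟩)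
      (E none) ((e _).2 (by rw [(h1 _ _).2 rfl]; positivity))
    refine ⟨F, fun a ha => (e _).1 (h _ fun i hi => ?_)⟩
    have : a ≠ i := fun e => ha (e ▸ hi)
    simpa [hE, this] using hε
  refine hJ ((Ctb.iUnion (A := fun n a => a ∈ F n) (by fun_prop) fun n =>
    Ctb.of_finite (F n).finite_toSet).mono fun a _ => ?_)
  by_contra hn
  push Not at hn
  have h5 : d (E none) (E (some a)) = 0 := by
    refine le_antisymm (not_lt.1 fun h => ?_) (h0 _ _)
    obtain ⟨n, hn'⟩ := exists_nat_one_div_lt h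
    have := hF n a (hn n)
    push_cast at this
    linarith
  have h6 := congrFun (congrArg Cube.ev ((h1 _ _).1 h5)) a
  simp [hE] at h6

end Pool.Agent.ZF92

end MrgPart1

-- marker of a merged file
example : 731051 + 381643 = 731051 + 381643 := rfl
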