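import Mathlib.Logic.UnivLE
import Mathlib.Data.Real.Basic
import Mathlib.SetTheory.ZFC.Basic

/-! Transitive set models of ZFC inside `ZFSet`. -/

namespace Pool.Agent.ZF92

open ZFSet

/-- First order formulas of set theory, variables are de Bruijn indices. -/
inductive Fm : Type
  | mem : ℕ → ℕ → Fm
  | eq : ℕ → ℕ → Fm
  | neg : Fm → Fm
  | and : Fm → Fm → Fm
  | all : Fm → Fm

/-- Put a new value in front of an assignment. -/
def cons {α : Type 1} (x : α) (v : ℕ → α) : ℕ → α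
  | 0 => x
  | n + 1 => v n

/-- Satisfaction in the structure `(M, ∈)`. -/
def Sat (M : Set ZFSet.{0}) : Fm → (ℕ → ZFSet.{0}) → Prop
  | .mem i j, v => v i ∈ v j
  | .eq i j, v => v i = v j
  | .neg a, v => ¬ Sat M a v
  | .and a b, v => Sat M a v ∧ Sat M b v
  | .all a, v => ∀ x ∈ M, Sat M a (cons x v)

/-- In `M`, the set of pairs `r` is a strict well order of `X`. -/
def WellOrd (M : Set ZFSet.{0}) (r X : ZFSet.{0}) : Prop :=
  (∀ x ∈ X, pair x x ∉ r) ∧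
  (∀ x ∈ X, ∀ y ∈ X, ∀ z ∈ X, pair x y ∈ r → pair y z ∈ r → pair x z ∈ r) ∧
  (∀ x ∈ X, ∀ y ∈ X, pair x y ∈ r ∨ x = y ∨ pair y x ∈ r) ∧
  ∀ A ∈ M, A ⊆ X → A ≠ ∅ → ∃ x ∈ A, ∀ y ∈ A, pair y x ∉ r

/-- `M` is a transitive model of ZFC (extensionality and foundation hold in every transitive
class; replacement is stated as collection, choice as the well ordering principle). -/
structure ZFC (M : Set ZFSet.{0}) : Prop where
  transitive : ∀ x ∈ M, ∀ y ∈ x, y ∈ M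
  pairing : ∀ x ∈ M, ∀ y ∈ M, ({x, y} : ZFSet) ∈ M
  union : ∀ x ∈ M, ZFSet.sUnion x ∈ M
  power : ∀ x ∈ M, ∃ y ∈ M, ∀ z ∈ M, z ⊆ x → z ∈ y
  infinity : ZFSet.omega ∈ M
  separation : ∀ (φ : Fm) (v : ℕ → ZFSet), (∀ i, v i ∈ M) → ∀ a ∈ M,
    a.sep (fun x => Sat M φ (cons x v)) ∈ M
  collection : ∀ (φ : Fm) (v : ℕ → ZFSet), (∀ i, v i ∈ M) → ∀ a ∈ M,
    (∀ x ∈ a, ∃ y ∈ M, Sat M φ (cons y (cons x v))) →
      ∃ b ∈ M, ∀ x ∈ a, ∃ y ∈ b, Sat M φ (cons y (cons x v))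
  wellorder : ∀ x ∈ M, ∃ r ∈ M, WellOrd M r x

/-- The von Neumann numeral. -/
def nat : ℕ → ZFSet.{0}
  | 0 => ∅
  | n + 1 => insert (nat n) (nat n)

/-- A rational as the triple (positive part of the numerator, negative part, denominator). -/
def rat (q : ℚ) : ZFSet.{0} := pair (pair (nat q.num.toNat) (nat (-q.num).toNat)) (nat q.den)

/-- A real number as a Dedekind cut. -/
noncomputable def cut (r : ℝ) : ZFSet.{0} := range fun q : {q : ℚ // (q : ℝ) < r} => rat q.1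

end Pool.Agent.ZF92
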